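import Mathlib

/-!
# The ordinary partition relation
-/

open Cardinal

universe u

namespace Pool.Agent.Par4

/-- The ordinary partition relation `κ → (c, d)^r`: for every set `X` of cardinality `κ` and
every map `f : [X]^r → {0, 1}` there is a set `Y ⊆ X` with `|Y| = c` all of whose `r`-element
subsets have colour `0`, or a set `Y ⊆ X` with `|Y| = d` all of whose `r`-element subsets have
colour `1`. -/
def Arrow (κ : Cardinal.{u}) (r : ℕ) (c d : Cardinal.{u}) : Prop :=
  ∀ X : Type u, #X = κ → ∀ f : {s : Finset X // s.card = r} → Fin 2,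
    (∃ Y : Set X, #Y = c ∧ ∀ s : {s : Finset X // s.card = r}, (s.1 : Set X) ⊆ Y → f s = 0) ∨
    (∃ Y : Set X, #Y = d ∧ ∀ s : {s : Finset X // s.card = r}, (s.1 : Set X) ⊆ Y → f s = 1)

end Pool.Agent.Par4
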