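import Mathlib

/-!
# First differences and eventual values

Auxiliary combinatorics for the partition relation `(ℵ_{ω₁}, 5)⁴`.
-/

open Cardinal Ordinal Set Order

universe u

namespace Pool.Agent.Par4

/-- The two properties of the first difference function on a lexicographically monotone
sequence. -/
structure IsDelta {K W : Type*} [LinearOrder K] [LinearOrder W] (D : K → K → W) : Prop where
  min_eq : ∀ a b c, a < b → b < c → D a c = min (D a b) (D b c)
  ne : ∀ a b c, a < b → b < c → D a b ≠ D b c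

/-- Sets smaller than the cofinality are bounded. -/
theorem exists_bound {K : Type u} [LinearOrder K] (s : Set K) (h : #s < Order.cof K) :
    ∃ u, ∀ x ∈ s, x < u := by
  by_contra hno
  push Not at hno
  exact absurd (Order.cof_le (s := s) (fun u => by
    obtain ⟨x, hx, hux⟩ := hno u
    exact ⟨x, hx, hux⟩)) (not_le.2 h)

/-- A monotone function with small range is eventually constant. -/
theorem eventually_const {K V : Type u} [LinearOrder K] [LinearOrder V] (c : K → V)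
    (hc : Monotone c) (h : #(range c) < Order.cof K) : ∃ i₀, ∀ i, i₀ ≤ i → c i = c i₀ := by
  by_contra hno
  push Not at hno
  choose f hf1 hf2 using hno
  have hsel : ∀ v : range c, ∃ i, c i = v.1 := fun v => v.2
  choose p hp using hsel
  obtain ⟨u, hu⟩ := exists_bound (range fun v : range c => f (p v))
    (lt_of_le_of_lt mk_range_le h)
  set v : range c := ⟨c u, mem_range_self u⟩ with hv
  have h1 : f (p v) < u := hu _ ⟨v, rfl⟩
  have h2 : c (f (p v)) ≤ c u := hc h1.le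
  have h3 : c (p v) = c u := hp v
  have h4 : c (p v) ≤ c (f (p v)) := hc (hf1 _)
  exact hf2 (p v) (le_antisymm (h2.trans h3.ge) h4)

/-- Eventual values of a first difference function. -/
theorem exists_ev {K W : Type*} [LinearOrder K] [NoMaxOrder K] [LinearOrder W]
    [WellFoundedLT W] {D : K → K → W} (hD : IsDelta D) :
    ∃ e : K → W, (∀ a, ∃ b, a < b ∧ ∀ c, b ≤ c → D a c = e a) ∧ Monotone e ∧
      (∀ a b, e a < e b → D a b = e a) ∧ (∀ a, ∃ b, a < b ∧ ∀ c, b ≤ c → e c ≠ e a) := by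
  have hmin : ∀ a : K, ∃ b, a < b ∧ ∀ c, a < c → D a b ≤ D a c := by
    intro a
    have hne : (image (D a) (Ioi a)).Nonempty := by
      obtain ⟨b, hb⟩ := exists_gt a
      exact ⟨D a b, b, hb, rfl⟩
    obtain ⟨w, ⟨b, hb, rfl⟩, hw⟩ := (wellFounded_lt (α := W)).has_min _ hne
    exact ⟨b, hb, fun c hc => not_lt.1 (hw _ ⟨c, hc, rfl⟩)⟩
  choose p hp1 hp2 using hmin
  have hev : ∀ a c, p a ≤ c → D a c = D a (p a) := by
    intro a c hc
    rcases hc.eq_or_lt with rfl | hc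
    · rfl
    · apply le_antisymm
      · rw [hD.min_eq a (p a) c (hp1 a) hc]
        exact min_le_left _ _
      · exact hp2 a c ((hp1 a).trans hc)
  have hmono : Monotone fun a => D a (p a) := by
    intro a b hab
    rcases hab.eq_or_lt with rfl | hab
    · exact le_rfl
    · have h1 := hev a (max (p a) (p b)) (le_max_left _ _)
      have h2 := hev b (max (p a) (p b)) (le_max_right _ _)
      have h3 : b < max (p a) (p b) := lt_of_lt_of_le (hp1 b) (le_max_right _ _)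
      have h4 := hD.min_eq a b _ hab h3
      show D a (p a) ≤ D b (p b)
      rw [← h1, ← h2, h4]
      exact min_le_right _ _
  refine ⟨fun a => D a (p a), fun a => ⟨p a, hp1 a, fun c hc => hev a c hc⟩, hmono, ?_, ?_⟩
  · intro a b hab
    have hab' : a < b := by
      by_contra h
      exact absurd (hmono (not_lt.1 h)) (not_le.2 hab)
    have h1 := hev a (max (p a) (p b)) (le_max_left _ _)
    have h2 := hev b (max (p a) (p b)) (le_max_right _ _)
    have h3 : b < max (p a) (p b) := lt_of_lt_of_le (hp1 b) (le_max_right _ _)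
    have h4 := hD.min_eq a b _ hab' h3
    rw [h1, h2] at h4
    rcases min_choice (D a b) (D b (p b)) with h5 | h5
    · rw [h5] at h4
      exact h4.symm
    · rw [h5] at h4
      exact absurd h4 hab.ne
  · intro a
    refine ⟨p a, hp1 a, fun c hc h => ?_⟩
    have h1 := hev a c hc
    have h2 : a < c := lt_of_lt_of_le (hp1 a) hc
    exact hD.ne a c (p c) h2 (hp1 c) (h1.trans h.symm)

/-- The main combinatorial lemma: a first difference function on a well-order of type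
`ℵ_{ω₁}` realises one of the forbidden patterns. -/
theorem exists_bad {Λ W Ω : Type u} [LinearOrder Λ] [Nonempty Λ] [NoMaxOrder Λ]
    [LinearOrder W] [WellFoundedLT W] [LinearOrder Ω] (κ : Ω → Cardinal.{u})
    (hcof : ℵ₀ < Order.cof Λ)
    (hK : ∀ (β : Ω) (η : Λ), ∃ (K : Type u) (_ : LinearOrder K) (_ : Nonempty K)
      (_ : NoMaxOrder K) (k : K → Λ),
      StrictMono k ∧ (∀ i, η < k i) ∧ κ β < Order.cof K)
    {D : Λ → Λ → W} (hD : IsDelta D) (b : W → Ω) (hb : Monotone b)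
    (g : W → W → W → Prop)
    (hg : ∀ Z : Set W, (∀ x ∈ Z, ∀ y ∈ Z, ∀ z ∈ Z, x < y → y < z → ¬ g x y z) →
      (b '' Z).Countable ∧ ∀ β, #({w | w ∈ Z ∧ b w ≤ β} : Set W) ≤ κ β) :
    ∃ x₁ x₂ x₃ x₄ : Λ, x₁ < x₂ ∧ x₂ < x₃ ∧ x₃ < x₄ ∧
      ((D x₁ x₂ < D x₂ x₃ ∧ D x₂ x₃ < D x₃ x₄ ∧ g (D x₁ x₂) (D x₂ x₃) (D x₃ x₄)) ∨
        (b (D x₁ x₂) = b (D x₃ x₄) ∧ b (D x₃ x₄) < b (D x₂ x₃))) := by
  by_contra hno
  have hno1 : ∀ x₁ x₂ x₃ x₄ : Λ, x₁ < x₂ → x₂ < x₃ → x₃ < x₄ → D x₁ x₂ < D x₂ x₃ →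
      D x₂ x₃ < D x₃ x₄ → ¬ g (D x₁ x₂) (D x₂ x₃) (D x₃ x₄) :=
    fun x₁ x₂ x₃ x₄ h12 h23 h34 h1 h2 h3 => hno ⟨x₁, x₂, x₃, x₄, h12, h23, h34, .inl ⟨h1, h2, h3⟩⟩
  have hno2 : ∀ x₁ x₂ x₃ x₄ : Λ, x₁ < x₂ → x₂ < x₃ → x₃ < x₄ → b (D x₁ x₂) = b (D x₃ x₄) →
      ¬ b (D x₃ x₄) < b (D x₂ x₃) :=
    fun x₁ x₂ x₃ x₄ h12 h23 h34 h1 h2 => hno ⟨x₁, x₂, x₃, x₄, h12, h23, h34, .inr ⟨h1, h2⟩⟩
  -- ranges of eventual values are homogeneous
  have hhom : ∀ (K : Type u) [LinearOrder K] [NoMaxOrder K] (k : K → Λ), StrictMono k →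
      ∀ e : K → W, (∀ a, ∃ b, a < b ∧ ∀ c, b ≤ c → D (k a) (k c) = e a) → Monotone e →
      (∀ a b, e a < e b → D (k a) (k b) = e a) →
      ∀ x ∈ range e, ∀ y ∈ range e, ∀ z ∈ range e, x < y → y < z → ¬ g x y z := by
    rintro K _ _ k hk e he1 he2 he3 _ ⟨a, rfl⟩ _ ⟨b', rfl⟩ _ ⟨c, rfl⟩ hxy hyz
    have hab : a < b' := by
      by_contra h
      exact absurd (he2 (not_lt.1 h)) (not_le.2 hxy)
    have hbc : b' < c := by
      by_contra h
      exact absurd (he2 (not_lt.1 h)) (not_le.2 hyz)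
    obtain ⟨d, hcd, hd⟩ := he1 c
    have h1 := he3 a b' hxy
    have h2 := he3 b' c hyz
    have h3 := hd d le_rfl
    have := hno1 (k a) (k b') (k c) (k d) (hk hab) (hk hbc) (hk hcd)
    rw [h1, h2, h3] at this
    exact this hxy hyz
  obtain ⟨d, hd1, hd2, hd3, hd4⟩ := exists_ev hD
  have hZ := hhom Λ id strictMono_id d hd1 hd2 hd3
  obtain ⟨hZ1, -⟩ := hg _ hZ
  -- the block of `d` is eventually constant
  have hrange : #(range fun x => b (d x)) < Order.cof Λ := by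
    refine lt_of_le_of_lt ?_ hcof
    rw [← Set.range_comp] at hZ1
    exact le_aleph0_iff_set_countable.2 hZ1
  obtain ⟨ξ, hξ⟩ := eventually_const (fun x => b (d x)) (hb.comp hd2) hrange
  obtain ⟨η, hη1, hη2⟩ := hd1 ξ
  obtain ⟨K, _, _, _, k, hk1, hk2, hk3⟩ := hK (b (d ξ)) η
  have hDk : IsDelta fun a b => D (k a) (k b) :=
    ⟨fun a b c hab hbc => hD.min_eq _ _ _ (hk1 hab) (hk1 hbc),
      fun a b c hab hbc => hD.ne _ _ _ (hk1 hab) (hk1 hbc)⟩
  obtain ⟨e, he1, he2, he3, he4⟩ := exists_ev hDk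
  have hE := hhom K k hk1 e he1 he2 he3
  obtain ⟨-, hE2⟩ := hg _ hE
  -- some `e i` lies in a high block
  obtain ⟨i₂, hi₂⟩ : ∃ i, b (d ξ) < b (e i) := by
    by_contra hcon
    push Not at hcon
    have hsub : range e ⊆ {w | w ∈ range e ∧ b w ≤ b (d ξ)} := by
      rintro _ ⟨i, rfl⟩
      exact ⟨⟨i, rfl⟩, hcon i⟩
    have hlt : #(range e) < Order.cof K :=
      lt_of_le_of_lt ((mk_le_mk_of_subset hsub).trans (hE2 _)) hk3
    obtain ⟨i₀, hi₀⟩ := eventually_const e he2 hlt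
    obtain ⟨j, hj1, hj2⟩ := he4 i₀
    exact hj2 j le_rfl (hi₀ j hj1.le)
  obtain ⟨i₃, hi₃, hi₃'⟩ := he1 i₂
  obtain ⟨x₄, hx₄, hx₄'⟩ := hd1 (k i₃)
  have h1 : D ξ (k i₂) = d ξ := hη2 _ (hk2 i₂).le
  have h2 : D (k i₂) (k i₃) = e i₂ := hi₃' i₃ le_rfl
  have h3 : D (k i₃) x₄ = d (k i₃) := hx₄' _ le_rfl
  have h4 : b (d (k i₃)) = b (d ξ) := hξ (k i₃) (hη1.le.trans (hk2 i₃).le)
  have h5 := hno2 ξ (k i₂) (k i₃) x₄ (hη1.trans (hk2 i₂)) (hk1 hi₃) hx₄
  rw [h1, h2, h3, h4] at h5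
  exact h5 rfl hi₂

end Pool.Agent.Par4
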