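import Mathlib
import Pool.Agent.Par4.Delta

/-!
# Lexicographic order on `W → Bool` and Sierpiński colourings
-/

open Cardinal Ordinal Set Order

universe u

namespace Pool.Agent.Par4

section Lex

variable {W : Type*} [LinearOrder W]

/-- Lexicographic order on binary sequences. -/
def LexLt (x y : W → Bool) : Prop := ∃ i, (∀ j < i, x j = y j) ∧ x i = false ∧ y i = true

theorem LexLt.asymm {x y : W → Bool} (h : LexLt x y) : ¬ LexLt y x := by
  rintro ⟨j, hj, hj1, hj2⟩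
  obtain ⟨i, hi, hi1, hi2⟩ := h
  rcases lt_trichotomy i j with h | rfl | h
  · have := hj i h
    rw [hi1, hi2] at this
    exact absurd this (by simp)
  · rw [hi1] at hj2
    exact absurd hj2 (by simp)
  · have := hi j h
    rw [hj1, hj2] at this
    exact absurd this (by simp)

theorem lexLt_total [WellFoundedLT W] {x y : W → Bool} (h : x ≠ y) : LexLt x y ∨ LexLt y x := by
  have hne : {i | x i ≠ y i}.Nonempty := by
    by_contra hcon
    rw [not_nonempty_iff_eq_empty] at hcon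
    apply h
    funext i
    by_contra hi
    have : i ∈ ({i | x i ≠ y i} : Set W) := hi
    rw [hcon] at this
    exact this
  obtain ⟨i, hi, hi'⟩ := (wellFounded_lt (α := W)).has_min _ hne
  have hj : ∀ j < i, x j = y j := fun j hj => by
    by_contra hcon
    exact hi' j hcon hj
  have hi2 : x i ≠ y i := hi
  cases hx : x i
  · left
    refine ⟨i, hj, hx, ?_⟩
    rw [hx] at hi2
    simpa using hi2.symm
  · right
    refine ⟨i, fun j h => (hj j h).symm, ?_, hx⟩
    rw [hx] at hi2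
    simpa using hi2.symm

/-- First difference. -/
noncomputable def fd [Nonempty W] (x y : W → Bool) : W :=
  open Classical in
  if h : ∃ i, (∀ j < i, x j = y j) ∧ x i ≠ y i then h.choose else Classical.arbitrary W

theorem fd_eq [Nonempty W] {x y : W → Bool} {i : W} (h1 : ∀ j < i, x j = y j)
    (h2 : x i ≠ y i) : fd x y = i := by
  have h : ∃ i, (∀ j < i, x j = y j) ∧ x i ≠ y i := ⟨i, h1, h2⟩
  rw [fd, dif_pos h]
  obtain ⟨h3, h4⟩ := h.choose_spec
  rcases lt_trichotomy h.choose i with h5 | h5 | h5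
  · exact absurd (h1 _ h5) h4
  · exact h5
  · exact absurd (h3 _ h5) h2

theorem fd_comm [Nonempty W] (x y : W → Bool) : fd x y = fd y x := by
  by_cases h : ∃ i, (∀ j < i, x j = y j) ∧ x i ≠ y i
  · obtain ⟨i, h1, h2⟩ := h
    rw [fd_eq h1 h2, fd_eq (fun j hj => (h1 j hj).symm) h2.symm]
  · have h' : ¬ ∃ i, (∀ j < i, y j = x j) ∧ y i ≠ x i := by
      rintro ⟨i, h1, h2⟩
      exact h ⟨i, fun j hj => (h1 j hj).symm, h2.symm⟩
    rw [fd, fd, dif_neg h, dif_neg h']

theorem LexLt.fd_spec [Nonempty W] {x y : W → Bool} (h : LexLt x y) :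
    (∀ j < fd x y, x j = y j) ∧ x (fd x y) = false ∧ y (fd x y) = true := by
  obtain ⟨i, h1, h2, h3⟩ := h
  have : fd x y = i := fd_eq h1 (by rw [h2, h3]; simp)
  rw [this]
  exact ⟨h1, h2, h3⟩

theorem fd_min [Nonempty W] {x y z : W → Bool} (hxy : LexLt x y) (hyz : LexLt y z) :
    fd x z = min (fd x y) (fd y z) := by
  obtain ⟨h1, h2, h3⟩ := hxy.fd_spec
  obtain ⟨k1, k2, k3⟩ := hyz.fd_spec
  rcases lt_trichotomy (fd x y) (fd y z) with h | h | h
  · rw [min_eq_left h.le]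
    apply fd_eq
    · intro j hj
      rw [h1 j hj, k1 j (hj.trans h)]
    · rw [h2, ← k1 _ h, h3]
      simp
  · rw [h, k2] at h3
    exact absurd h3 (by simp)
  · rw [min_eq_right h.le]
    apply fd_eq
    · intro j hj
      rw [h1 j (hj.trans h), k1 j hj]
    · rw [k3, h1 _ h, k2]
      simp

theorem fd_ne [Nonempty W] {x y z : W → Bool} (hxy : LexLt x y) (hyz : LexLt y z) :
    fd x y ≠ fd y z := by
  obtain ⟨h1, h2, h3⟩ := hxy.fd_spec
  obtain ⟨k1, k2, k3⟩ := hyz.fd_spec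
  intro h
  rw [h, k2] at h3
  exact absurd h3 (by simp)

theorem isDelta_inc [Nonempty W] {K : Type*} [LinearOrder K] {x : K → W → Bool}
    (h : ∀ a b, a < b → LexLt (x a) (x b)) : IsDelta fun a b => fd (x a) (x b) :=
  ⟨fun _ _ _ hab hbc => fd_min (h _ _ hab) (h _ _ hbc),
    fun _ _ _ hab hbc => fd_ne (h _ _ hab) (h _ _ hbc)⟩

theorem isDelta_dec [Nonempty W] {K : Type*} [LinearOrder K] {x : K → W → Bool}
    (h : ∀ a b, a < b → LexLt (x b) (x a)) : IsDelta fun a b => fd (x a) (x b) := by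
  refine ⟨fun a b c hab hbc => ?_, fun a b c hab hbc => ?_⟩
  · show fd (x a) (x c) = min (fd (x a) (x b)) (fd (x b) (x c))
    rw [fd_comm (x a) (x c), fd_comm (x a) (x b), fd_comm (x b) (x c), min_comm]
    exact fd_min (h _ _ hbc) (h _ _ hab)
  · show fd (x a) (x b) ≠ fd (x b) (x c)
    rw [fd_comm (x a) (x b), fd_comm (x b) (x c)]
    exact (fd_ne (h _ _ hbc) (h _ _ hab)).symm

end Lex

/-- A subset of cardinality at least `c` of a well-order contains an increasing copy of the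
initial ordinal of `c`. -/
theorem exists_strictMono_of_card {X : Type u} [LinearOrder X] [WellFoundedLT X] (S : Set X)
    (c : Cardinal.{u}) (h : c ≤ #S) :
    ∃ k : c.ord.ToType → X, StrictMono k ∧ ∀ i, k i ∈ S := by
  have h1 : c.ord ≤ typeLT S := (ord_le_ord.2 h).trans (ord_le_type _)
  have h2 : typeLT c.ord.ToType ≤ typeLT S := by rwa [type_toType]
  obtain ⟨f⟩ := type_le_iff'.1 h2
  exact ⟨fun i => (f i).1, fun a b hab => f.map_rel_iff.2 hab, fun i => (f i).2⟩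

theorem nonempty_toType_of_aleph0_le {c : Cardinal.{u}} (hc : ℵ₀ ≤ c) :
    Nonempty c.ord.ToType := by
  rw [← mk_ne_zero_iff, mk_ord_toType]
  exact (aleph0_pos.trans_le hc).ne'

theorem noMaxOrder_toType {c : Cardinal.{u}} (hc : ℵ₀ ≤ c) : NoMaxOrder c.ord.ToType :=
  noMaxOrder hc

/-- Sierpiński: a set of size at most `2 ^ κ` carries a total asymmetric relation that agrees with
(the converse of) a given well-order only on sets of size at most `κ`. -/
theorem sierpinski {W : Type u} [LinearOrder W] [WellFoundedLT W] (S : Set W)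
    (κ : Cardinal.{u}) (hκ : ℵ₀ ≤ κ) (hS : #S ≤ 2 ^ κ) :
    ∃ R : W → W → Prop, (∀ x y, R x y → ¬ R y x) ∧
      (∀ x ∈ S, ∀ y ∈ S, x ≠ y → R x y ∨ R y x) ∧
      (∀ Z ⊆ S, (∀ x ∈ Z, ∀ y ∈ Z, x < y → R x y) → #Z ≤ κ) ∧
      (∀ Z ⊆ S, (∀ x ∈ Z, ∀ y ∈ Z, x < y → R y x) → #Z ≤ κ) := by
  classical
  have hne : Nonempty κ.ord.ToType := nonempty_toType_of_aleph0_le hκ
  obtain ⟨φ⟩ : Nonempty (S ↪ (κ.ord.ToType → Bool)) := by
    rw [← Cardinal.le_def]
    simpa using hS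
  set ψ : W → κ.ord.ToType → Bool := fun w => if h : w ∈ S then φ ⟨w, h⟩ else fun _ => false
    with hψ
  have hinj : ∀ x ∈ S, ∀ y ∈ S, x ≠ y → ψ x ≠ ψ y := by
    intro x hx y hy hxy h
    simp only [hψ, hx, hy, dif_pos] at h
    exact hxy (congrArg Subtype.val (φ.injective h))
  have key : ∀ K : Type u, ∀ [LinearOrder K] [NoMaxOrder K] (k : K → κ.ord.ToType → Bool),
      κ < Order.cof K → ¬ IsDelta fun a b => fd (k a) (k b) := by
    intro K _ _ k hK hD
    obtain ⟨e, he1, he2, he3, he4⟩ := exists_ev hD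
    have : #(range e) < Order.cof K := by
      refine lt_of_le_of_lt (mk_set_le _) ?_
      rwa [mk_ord_toType]
    obtain ⟨i₀, hi₀⟩ := eventually_const e he2 this
    obtain ⟨j, hj1, hj2⟩ := he4 i₀
    exact hj2 j le_rfl (hi₀ j hj1.le)
  have hreg : (succ κ).IsRegular := isRegular_succ hκ
  have hno : NoMaxOrder (succ κ).ord.ToType := noMaxOrder_toType hreg.aleph0_le
  have hcof : κ < Order.cof (succ κ).ord.ToType := by
    rw [Ordinal.cof_toType, hreg.cof_ord]
    exact lt_succ κ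
  refine ⟨fun x y => LexLt (ψ x) (ψ y), fun x y h => h.asymm,
    fun x hx y hy hxy => lexLt_total (hinj x hx y hy hxy), ?_, ?_⟩
  · intro Z _ hZ
    by_contra hcon
    obtain ⟨k, hk1, hk2⟩ := exists_strictMono_of_card Z (succ κ) (succ_le_of_lt (not_le.1 hcon))
    exact key _ (fun a => ψ (k a)) hcof (isDelta_inc fun a b hab => hZ _ (hk2 a) _ (hk2 b) (hk1 hab))
  · intro Z _ hZ
    by_contra hcon
    obtain ⟨k, hk1, hk2⟩ := exists_strictMono_of_card Z (succ κ) (succ_le_of_lt (not_le.1 hcon))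
    exact key _ (fun a => ψ (k a)) hcof (isDelta_dec fun a b hab => hZ _ (hk2 a) _ (hk2 b) (hk1 hab))

/-- The triple colouring `R x y ∧ R z y` has no homogeneous set of the other colour of size
larger than `κ`. -/
theorem card_le_of_homog {W : Type u} [LinearOrder W] (S : Set W)
    (κ : Cardinal.{u}) (hκ : ℵ₀ ≤ κ) (R : W → W → Prop)
    (htot : ∀ x ∈ S, ∀ y ∈ S, x ≠ y → R x y ∨ R y x)
    (h1 : ∀ Z ⊆ S, (∀ x ∈ Z, ∀ y ∈ Z, x < y → R x y) → #Z ≤ κ)
    (h2 : ∀ Z ⊆ S, (∀ x ∈ Z, ∀ y ∈ Z, x < y → R y x) → #Z ≤ κ)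
    (Z : Set W) (hZS : Z ⊆ S)
    (hZ : ∀ x ∈ Z, ∀ y ∈ Z, ∀ z ∈ Z, x < y → y < z → ¬ (R x y ∧ R z y)) : #Z ≤ κ := by
  set A : Set W := {y | y ∈ Z ∧ ∀ x ∈ Z, x < y → ¬ R x y} with hA
  set B : Set W := {y | y ∈ Z ∧ ∃ x ∈ Z, x < y ∧ R x y} with hB
  have hAle : #A ≤ κ := by
    apply h2 A (fun y hy => hZS hy.1)
    intro x hx y hy hxy
    exact (htot x (hZS hx.1) y (hZS hy.1) hxy.ne).resolve_left (hy.2 x hx.1 hxy)
  have hBle : #B ≤ κ := by
    apply h1 B (fun y hy => hZS hy.1)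
    intro y hy z hz hyz
    obtain ⟨hy1, x, hx, hxy, hR⟩ := hy
    exact (htot y (hZS hy1) z (hZS hz.1) hyz.ne).resolve_right
      (fun h => hZ x hx y hy1 z hz.1 hxy hyz ⟨hR, h⟩)
  have hAB : Z ⊆ A ∪ B := by
    intro y hy
    by_cases h : ∃ x ∈ Z, x < y ∧ R x y
    · exact .inr ⟨hy, h⟩
    · left
      push Not at h
      exact ⟨hy, h⟩
  calc #Z ≤ #(A ∪ B : Set W) := mk_le_mk_of_subset hAB
    _ ≤ #A + #B := mk_union_le _ _
    _ ≤ κ + κ := add_le_add hAle hBle
    _ = κ := add_eq_self hκ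

end Pool.Agent.Par4
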