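import Mathlib
import Pool.Agent.Par4.Lex

/-!
# The negative partition relation `2^(2^{<ℵ_{ω₁}}) ↛ (ℵ_{ω₁}, 5)⁴`
-/

open Cardinal Ordinal Set Order

universe u

namespace Pool.Agent.Par4

/-- Position of an element of `o.ToType`. -/
noncomputable def pos {o : Ordinal.{u}} (x : o.ToType) : Ordinal.{u} := (ToType.mk.symm x).1

theorem pos_lt {o : Ordinal.{u}} (x : o.ToType) : pos x < o := (ToType.mk.symm x).2

theorem pos_lt_pos {o : Ordinal.{u}} {x y : o.ToType} : pos x < pos y ↔ x < y := by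
  show (ToType.mk.symm x) < (ToType.mk.symm y) ↔ x < y
  exact (ToType.mk (o := o)).symm.lt_iff_lt

theorem pos_le_pos {o : Ordinal.{u}} {x y : o.ToType} : pos x ≤ pos y ↔ x ≤ y := by
  rw [← not_lt, pos_lt_pos, not_lt]

theorem exists_pos {o : Ordinal.{u}} {a : Ordinal.{u}} (ha : a < o) :
    ∃ x : o.ToType, pos x = a :=
  ⟨ToType.mk ⟨a, ha⟩, by simp [pos]⟩

theorem pos_injective {o : Ordinal.{u}} : Function.Injective (pos : o.ToType → Ordinal.{u}) := by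
  intro x y h
  exact le_antisymm (pos_le_pos.1 h.le) (pos_le_pos.1 h.ge)

/-- Data on a well-ordered set `W` used to define the colouring. -/
structure Good {W Ω : Type u} [LinearOrder W] [LinearOrder Ω] (κ : Ω → Cardinal.{u})
    (b : W → Ω) (g : W → W → W → Prop) : Prop where
  mono : Monotone b
  g1 : ∀ x y z w, g x y z → ¬ g y z w
  g2 : ∀ x y z, g x y z → b x = b y → ¬ b y < b z
  g3 : ∀ Z : Set W, (∀ x ∈ Z, ∀ y ∈ Z, ∀ z ∈ Z, x < y → y < z → ¬ g x y z) →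
      (b '' Z).Countable ∧ ∀ β, #({w | w ∈ Z ∧ b w ≤ β} : Set W) ≤ κ β

theorem mk_Iic_le (β : (ℵ_ 1 : Cardinal.{u}).ord.ToType) : #(Iic β) ≤ ℵ₀ := by
  have : NoMaxOrder (ℵ_ 1 : Cardinal.{u}).ord.ToType :=
    noMaxOrder_toType (aleph0_le_aleph 1)
  obtain ⟨γ, hγ⟩ := exists_gt β
  have h1 : #(Iio γ) < ℵ_ 1 := mk_Iio_toType_ord_lt γ
  rw [lt_aleph_one_iff] at h1
  exact (mk_le_mk_of_subset (fun x hx => lt_of_le_of_lt hx hγ)).trans h1

theorem mk_pos_lt_le {o a : Ordinal.{u}} (S : Set o.ToType) (hS : ∀ w ∈ S, pos w < a) :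
    #S ≤ a.card := by
  have hinj : Function.Injective fun w : S => ToType.mk (⟨pos w.1, hS _ w.2⟩ : Iio a) := by
    intro x y hxy
    have h1 := congrArg Subtype.val ((ToType.mk (o := a)).injective hxy)
    exact Subtype.ext (pos_injective h1)
  have h1 := mk_le_of_injective hinj
  rwa [mk_toType] at h1

/-- The cardinals attached to the blocks. -/
noncomputable def kap (γ : (ℵ_ 1 : Cardinal.{u}).ord.ToType) : Cardinal.{u} := ℵ_ (pos γ)

/-- Existence of the auxiliary triple colouring on `2^{<ℵ_{ω₁}}`. -/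
theorem exists_good : ∃ (b : ((2 : Cardinal.{u}) ^< ℵ_ (ω_ 1)).ord.ToType →
      (ℵ_ 1 : Cardinal.{u}).ord.ToType) (g : _ → _ → _ → Prop), Good kap b g := by
  classical
  set ν : Cardinal.{u} := (2 : Cardinal.{u}) ^< ℵ_ (ω_ 1) with hν
  have hex : ∀ w : ν.ord.ToType,
      {γ : (ℵ_ 1 : Cardinal.{u}).ord.ToType | pos w < ((2 : Cardinal.{u}) ^ kap γ).ord}.Nonempty := by
    intro w
    have h1 : (pos w).card < ν := by
      rw [← lt_ord]
      exact pos_lt w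
    obtain ⟨c, hc, hc2⟩ : ∃ c < ℵ_ (ω_ 1), (pos w).card < 2 ^ c := by
      by_contra hcon
      push Not at hcon
      exact absurd (powerlt_le.2 fun x hx => hcon x hx) (not_le.2 h1)
    obtain ⟨γ, hγ⟩ : ∃ γ : (ℵ_ 1 : Cardinal.{u}).ord.ToType, c ≤ kap γ := by
      rcases lt_or_ge c ℵ₀ with h | h
      · have : Nonempty (ℵ_ 1 : Cardinal.{u}).ord.ToType :=
          nonempty_toType_of_aleph0_le (aleph0_le_aleph 1)
        exact ⟨Classical.arbitrary _, h.le.trans (aleph0_le_aleph _)⟩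
      · obtain ⟨o, rfl⟩ := mem_range_aleph_iff.2 h
        rw [aleph_lt_aleph] at hc
        rw [← ord_aleph] at hc
        obtain ⟨x, rfl⟩ := exists_pos hc
        exact ⟨x, le_rfl⟩
    refine ⟨γ, ?_⟩
    show pos w < ((2 : Cardinal.{u}) ^ kap γ).ord
    rw [lt_ord]
    exact hc2.trans_le (power_le_power_left two_ne_zero hγ)
  have hex2 : ∀ w : ν.ord.ToType, ∃ γ : (ℵ_ 1 : Cardinal.{u}).ord.ToType,
      pos w < ((2 : Cardinal.{u}) ^ kap γ).ord ∧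
      ∀ γ', pos w < ((2 : Cardinal.{u}) ^ kap γ').ord → γ ≤ γ' := by
    intro w
    obtain ⟨γ, hγ, hγ'⟩ := (wellFounded_lt (α := (ℵ_ 1 : Cardinal.{u}).ord.ToType)).has_min _ (hex w)
    exact ⟨γ, hγ, fun γ' h => not_lt.1 (hγ' _ h)⟩
  choose b hb1 hb2 using hex2
  have hmono : Monotone b := by
    intro w w' hww
    apply hb2
    exact lt_of_le_of_lt (pos_le_pos.2 hww) (hb1 w')
  have hblock : ∀ γ, #({w | b w = γ} : Set ν.ord.ToType) ≤ 2 ^ kap γ := by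
    intro γ
    have := mk_pos_lt_le ({w | b w = γ} : Set ν.ord.ToType) (a := ((2 : Cardinal.{u}) ^ kap γ).ord)
      (by rintro w rfl; exact hb1 w)
    rwa [card_ord] at this
  have hkap : ∀ γ : (ℵ_ 1 : Cardinal.{u}).ord.ToType, ℵ₀ ≤ kap γ := fun γ => aleph0_le_aleph _
  have hsierp := fun γ => sierpinski ({w | b w = γ} : Set ν.ord.ToType) (kap γ) (hkap γ) (hblock γ)
  choose R hR1 hR2 hR3 hR4 using hsierp
  obtain ⟨T, hT1, hT2, hT3, hT4⟩ := sierpinski (univ : Set (ℵ_ 1 : Cardinal.{u}).ord.ToType) ℵ₀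
    le_rfl (by
      rw [mk_univ, mk_toType, card_ord, ← succ_aleph0]
      exact succ_le_of_lt (cantor _))
  refine ⟨b, fun x y z => (b x = b y ∧ b y = b z ∧ R (b y) x y ∧ R (b y) z y) ∨
    (b x < b y ∧ b y < b z ∧ T (b x) (b y) ∧ T (b z) (b y)), hmono, ?_, ?_, ?_⟩
  · rintro x y z w (⟨h1, h2, h3, h4⟩ | ⟨h1, h2, h3, h4⟩) (⟨k1, k2, k3, k4⟩ | ⟨k1, k2, k3, k4⟩)
    · rw [h2] at h4
      exact hR1 _ _ _ h4 k3
    · exact absurd h2 k1.ne
    · exact absurd k1 h2.ne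
    · exact hT1 _ _ h4 k3
  · rintro x y z (⟨h1, h2, h3, h4⟩ | ⟨h1, h2, h3, h4⟩) k1 k2
    · exact absurd h2 k2.ne
    · exact absurd k1 h1.ne
  · intro Z hZ
    have hcount : #(b '' Z) ≤ ℵ₀ := by
      refine card_le_of_homog univ ℵ₀ le_rfl T hT2 hT3 hT4 _ (subset_univ _) ?_
      rintro _ ⟨x, hx, rfl⟩ _ ⟨y, hy, rfl⟩ _ ⟨z, hz, rfl⟩ hxy hyz ⟨h1, h2⟩
      exact hZ x hx y hy z hz (hmono.reflect_lt hxy) (hmono.reflect_lt hyz)
        (.inr ⟨hxy, hyz, h1, h2⟩)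
    refine ⟨le_aleph0_iff_set_countable.1 hcount, ?_⟩
    intro β
    have hfib : ∀ γ, #({w | w ∈ Z ∧ b w = γ} : Set ν.ord.ToType) ≤ kap γ := by
      intro γ
      refine card_le_of_homog {w | b w = γ} (kap γ) (hkap γ) (R γ) (hR2 γ) (hR3 γ) (hR4 γ) _
        (fun w hw => hw.2) ?_
      rintro x ⟨hx, hx'⟩ y ⟨hy, hy'⟩ z ⟨hz, hz'⟩ hxy hyz ⟨h1, h2⟩
      exact hZ x hx y hy z hz hxy hyz (.inl ⟨by rw [hx', hy'], by rw [hy', hz'], by rwa [hy'],
        by rwa [hy']⟩)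
    have hsub : ({w | w ∈ Z ∧ b w ≤ β} : Set ν.ord.ToType) ⊆
        ⋃ γ : Iic β, {w | w ∈ Z ∧ b w = γ.1} := by
      rintro w ⟨hw, hw'⟩
      exact mem_iUnion.2 ⟨⟨b w, hw'⟩, hw, rfl⟩
    calc #({w | w ∈ Z ∧ b w ≤ β} : Set ν.ord.ToType)
        ≤ #(⋃ γ : Iic β, {w | w ∈ Z ∧ b w = γ.1} : Set ν.ord.ToType) := mk_le_mk_of_subset hsub
      _ ≤ #(Iic β) * ⨆ γ : Iic β, #({w | w ∈ Z ∧ b w = γ.1} : Set ν.ord.ToType) := mk_iUnion_le _
      _ ≤ ℵ₀ * kap β := by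
        refine mul_le_mul' (mk_Iic_le β) (ciSup_le' fun γ => (hfib _).trans ?_)
        exact aleph_le_aleph.2 (pos_le_pos.2 γ.2)
      _ = kap β := aleph0_mul_eq (hkap β)

end Pool.Agent.Par4
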