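import Mathlib
import Pool.Agent.Par4.Neg
import Pool.Agent.Par4.Defs

/-!
# The negative partition relation `2^(2^{<ℵ_{ω₁}}) ↛ (ℵ_{ω₁}, 5)⁴`, second part
-/

open Cardinal Ordinal Set Order

universe u

namespace Pool.Agent.Par4

/-- The condition on the first differences. -/
def QQ {W Ω : Type u} [LinearOrder W] [LinearOrder Ω] (b : W → Ω) (g : W → W → W → Prop)
    (x y z : W) : Prop :=
  (x < y ∧ y < z ∧ g x y z) ∨ (b x = b z ∧ b z < b y)

/-- The condition on quadruples. -/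
def PP {W Ω : Type u} [LinearOrder W] [Nonempty W] [LinearOrder Ω] (b : W → Ω)
    (g : W → W → W → Prop) (x y z w : W → Bool) : Prop :=
  (LexLt x y ∧ LexLt z y ∧ LexLt z w) ∨
  (((LexLt x y ∧ LexLt y z ∧ LexLt z w) ∨ (LexLt y x ∧ LexLt z y ∧ LexLt w z)) ∧
    QQ b g (fd x y) (fd y z) (fd z w))

theorem no_five {W Ω : Type u} [LinearOrder W] [LinearOrder Ω] {κ : Ω → Cardinal.{u}}
    {b : W → Ω} {g : W → W → W → Prop} (hG : Good κ b g) (d₁ d₂ d₃ d₄ : W)
    (h1 : QQ b g d₁ d₂ d₃) (h2 : QQ b g d₂ d₃ d₄) (h3 : QQ b g (min d₁ d₂) d₃ d₄) : False := by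
  rcases h1 with ⟨h11, h12, h13⟩ | ⟨h11, h12⟩
  · rcases h2 with ⟨h21, h22, h23⟩ | ⟨h21, h22⟩
    · exact hG.g1 _ _ _ _ h13 h23
    · rw [min_eq_left h11.le] at h3
      rcases h3 with ⟨h31, h32, h33⟩ | ⟨h31, h32⟩
      · exact absurd (hG.mono h32.le) (not_le.2 h22)
      · exact hG.g2 _ _ _ h13 (h31.trans h21.symm) (by rw [h21]; exact h22)
  · rcases h2 with ⟨h21, h22, h23⟩ | ⟨h21, h22⟩
    · exact absurd (hG.mono h21.le) (not_le.2 h12)
    · rw [h21] at h12
      exact absurd h12 (not_lt.2 h22.le)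

theorem no_five' {W Ω : Type u} [LinearOrder W] [Nonempty W] [LinearOrder Ω]
    {κ : Ω → Cardinal.{u}} {b : W → Ω} {g : W → W → W → Prop} (hG : Good κ b g)
    (x₁ x₂ x₃ x₄ x₅ : W → Bool)
    (h1 : PP b g x₁ x₂ x₃ x₄) (h2 : PP b g x₂ x₃ x₄ x₅) (h3 : PP b g x₁ x₃ x₄ x₅) : False := by
  rcases h1 with ⟨a1, a2, a3⟩ | ⟨(⟨a1, a2, a3⟩ | ⟨a1, a2, a3⟩), q1⟩
  · rcases h2 with ⟨c1, c2, c3⟩ | ⟨(⟨c1, c2, c3⟩ | ⟨c1, c2, c3⟩), q2⟩
    · exact c1.asymm a2
    · exact c1.asymm a2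
    · exact c2.asymm a3
  · rcases h2 with ⟨c1, c2, c3⟩ | ⟨(⟨c1, c2, c3⟩ | ⟨c1, c2, c3⟩), q2⟩
    · exact c2.asymm a3
    · rcases h3 with ⟨e1, e2, e3⟩ | ⟨_, q3⟩
      · exact e2.asymm a3
      · rw [fd_min a1 a2] at q3
        exact no_five hG _ _ _ _ q1 q2 q3
    · exact c1.asymm a2
  · rcases h2 with ⟨c1, c2, c3⟩ | ⟨(⟨c1, c2, c3⟩ | ⟨c1, c2, c3⟩), q2⟩
    · exact c1.asymm a2
    · exact c1.asymm a2
    · rcases h3 with ⟨e1, e2, e3⟩ | ⟨_, q3⟩
      · exact e3.asymm c3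
      · have := fd_min a2 a1
        rw [fd_comm x₃ x₁, fd_comm x₃ x₂, fd_comm x₂ x₁, min_comm] at this
        rw [this] at q3
        exact no_five hG _ _ _ _ q1 q2 q3

/-- A sequence of binary functions of length `ω_{ω₁}` has a quadruple satisfying `PP`. -/
theorem exists_PP {W Ω : Type u} [LinearOrder W] [Nonempty W] [WellFoundedLT W] [LinearOrder Ω]
    {κ : Ω → Cardinal.{u}} {b : W → Ω} {g : W → W → W → Prop} (hG : Good κ b g)
    (c : Cardinal.{u}) (hc : ℵ₀ ≤ c) (hcof : ℵ₀ < c.ord.cof)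
    (hκ : ∀ β, κ β < c ∧ ∃ d : Cardinal.{u}, d ≤ c ∧ d.IsRegular ∧ κ β < d)
    (x : c.ord.ToType → W → Bool) (hx : Function.Injective x) :
    ∃ i₁ i₂ i₃ i₄, i₁ < i₂ ∧ i₂ < i₃ ∧ i₃ < i₄ ∧ PP b g (x i₁) (x i₂) (x i₃) (x i₄) := by
  by_contra hno
  push Not at hno
  -- the decomposition
  set A : Set c.ord.ToType := {j | ∀ i, i < j → ¬ LexLt (x i) (x j)} with hA
  set B : Set c.ord.ToType := {j | ∀ i, j < i → ¬ LexLt (x j) (x i)} with hB
  set C : Set c.ord.ToType := {j | (∃ i, i < j ∧ LexLt (x i) (x j)) ∧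
    ∃ i, j < i ∧ LexLt (x j) (x i)} with hC
  have hAm : ∀ i ∈ A, ∀ j ∈ A, i < j → LexLt (x j) (x i) := fun i hi j hj hij =>
    (lexLt_total (hx.ne hij.ne)).resolve_left (hj i hij)
  have hBm : ∀ i ∈ B, ∀ j ∈ B, i < j → LexLt (x j) (x i) := fun i hi j hj hij =>
    (lexLt_total (hx.ne hij.ne)).resolve_left (hi j hij)
  have hCm : ∀ i ∈ C, ∀ j ∈ C, i < j → LexLt (x i) (x j) := by
    intro i hi j hj hij
    obtain ⟨⟨p, hp, hp'⟩, _⟩ := hi
    obtain ⟨_, q, hq, hq'⟩ := hj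
    refine (lexLt_total (hx.ne hij.ne)).resolve_right fun h => ?_
    exact hno p i j q hp hij hq (.inl ⟨hp', h, hq'⟩)
  have hcover : (univ : Set c.ord.ToType) ⊆ (A ∪ B) ∪ C := by
    intro j _
    by_cases h1 : j ∈ A
    · exact .inl (.inl h1)
    by_cases h2 : j ∈ B
    · exact .inl (.inr h2)
    right
    simp only [hA, hB, mem_setOf_eq, not_forall, not_not] at h1 h2
    obtain ⟨i, hi, hi'⟩ := h1
    obtain ⟨k, hk, hk'⟩ := h2
    exact ⟨⟨i, hi, hi'⟩, k, hk, hk'⟩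
  -- one of the sets is large
  have hlarge : c ≤ #A ∨ c ≤ #B ∨ c ≤ #C := by
    by_contra hcon
    push Not at hcon
    obtain ⟨h1, h2, h3⟩ := hcon
    have h4 : c ≤ #A + #B + #C := by
      calc c = #(univ : Set c.ord.ToType) := by rw [mk_univ, mk_toType, card_ord]
        _ ≤ #((A ∪ B) ∪ C : Set c.ord.ToType) := mk_le_mk_of_subset hcover
        _ ≤ #(A ∪ B : Set c.ord.ToType) + #C := mk_union_le _ _
        _ ≤ #A + #B + #C := by gcongr; exact mk_union_le _ _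
    exact absurd h4 (not_le.2 (add_lt_of_lt hc (add_lt_of_lt hc h1 h2) h3))
  have hne : Nonempty c.ord.ToType := nonempty_toType_of_aleph0_le hc
  have hnm : NoMaxOrder c.ord.ToType := noMaxOrder_toType hc
  have hcof' : ℵ₀ < Order.cof c.ord.ToType := by rwa [Ordinal.cof_toType]
  have hK : ∀ (β : Ω) (η : c.ord.ToType), ∃ (K : Type u) (_ : LinearOrder K) (_ : Nonempty K)
      (_ : NoMaxOrder K) (k : K → c.ord.ToType),
      StrictMono k ∧ (∀ i, η < k i) ∧ κ β < Order.cof K := by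
    intro β η
    obtain ⟨_, d, hd1, hd2, hd3⟩ := hκ β
    have hcard : d ≤ #(Ioi η) := by
      refine hd1.trans ?_
      by_contra hcon
      have h1 : #(Iio η) < c := mk_Iio_toType_ord_lt η
      have h2 : #(univ : Set c.ord.ToType) ≤ #(Iio η) + 1 + #(Ioi η) := by
        calc #(univ : Set c.ord.ToType) ≤ #((Iio η ∪ {η}) ∪ Ioi η : Set c.ord.ToType) := by
              refine mk_le_mk_of_subset fun y _ => ?_
              rcases lt_trichotomy y η with h | h | h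
              · exact .inl (.inl h)
              · exact .inl (.inr h)
              · exact .inr h
          _ ≤ #(Iio η ∪ {η} : Set c.ord.ToType) + #(Ioi η) := mk_union_le _ _
          _ ≤ #(Iio η) + 1 + #(Ioi η) := by
              gcongr
              refine (mk_union_le _ _).trans ?_
              rw [mk_singleton]
      rw [mk_univ, mk_toType, card_ord] at h2
      exact absurd h2 (not_le.2 (add_lt_of_lt hc (add_lt_of_lt hc h1
        (one_lt_aleph0.trans_le hc)) (not_le.1 hcon)))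
    obtain ⟨k, hk1, hk2⟩ := exists_strictMono_of_card (Ioi η) d hcard
    refine ⟨d.ord.ToType, inferInstance, nonempty_toType_of_aleph0_le hd2.aleph0_le,
      noMaxOrder_toType hd2.aleph0_le, k, hk1, hk2, ?_⟩
    rw [Ordinal.cof_toType, hd2.cof_ord]
    exact hd3
  have key : ∀ k : c.ord.ToType → c.ord.ToType, StrictMono k →
      ((∀ i j, i < j → LexLt (x (k i)) (x (k j))) ∨
        (∀ i j, i < j → LexLt (x (k j)) (x (k i)))) → False := by
    intro k hk hmon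
    have hD : IsDelta fun i j => fd (x (k i)) (x (k j)) := by
      rcases hmon with h | h
      · exact isDelta_inc (x := fun i => x (k i)) h
      · exact isDelta_dec (x := fun i => x (k i)) h
    obtain ⟨i₁, i₂, i₃, i₄, h12, h23, h34, hbad⟩ :=
      exists_bad κ hcof' hK hD b hG.mono g hG.g3
    refine hno (k i₁) (k i₂) (k i₃) (k i₄) (hk h12) (hk h23) (hk h34) (.inr ⟨?_, hbad⟩)
    rcases hmon with h | h
    · exact .inl ⟨h _ _ h12, h _ _ h23, h _ _ h34⟩
    · exact .inr ⟨h _ _ h12, h _ _ h23, h _ _ h34⟩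
  rcases hlarge with h | h | h
  · obtain ⟨k, hk1, hk2⟩ := exists_strictMono_of_card A c h
    exact key k hk1 (.inr fun i j hij => hAm _ (hk2 i) _ (hk2 j) (hk1 hij))
  · obtain ⟨k, hk1, hk2⟩ := exists_strictMono_of_card B c h
    exact key k hk1 (.inr fun i j hij => hBm _ (hk2 i) _ (hk2 j) (hk1 hij))
  · obtain ⟨k, hk1, hk2⟩ := exists_strictMono_of_card C c h
    exact key k hk1 (.inl fun i j hij => hCm _ (hk2 i) _ (hk2 j) (hk1 hij))

/-- The colouring of quadruples, abstract form. -/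
theorem not_arrow_aux {W Ω : Type u} [LinearOrder W] [Nonempty W] [WellFoundedLT W]
    [LinearOrder Ω] {kp : Ω → Cardinal.{u}} {b : W → Ω} {g : W → W → W → Prop}
    (hG : Good kp b g) (c : Cardinal.{u}) (hc : ℵ₀ ≤ c) (hcof : ℵ₀ < c.ord.cof)
    (hkap : ∀ β, kp β < c ∧ ∃ d : Cardinal.{u}, d ≤ c ∧ d.IsRegular ∧ kp β < d)
    (κ : Cardinal.{u}) (φ : κ.ord.ToType ↪ (W → Bool)) : ¬ Arrow κ 4 c 5 := by
  classical
  intro hA
  set F : {s : Finset κ.ord.ToType // s.card = 4} → Fin 2 := fun s =>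
    if PP b g (φ (s.1.orderEmbOfFin s.2 0)) (φ (s.1.orderEmbOfFin s.2 1))
      (φ (s.1.orderEmbOfFin s.2 2)) (φ (s.1.orderEmbOfFin s.2 3)) then 1 else 0 with hF
  have hFval : ∀ x : Fin 4 → κ.ord.ToType, ∀ hx : StrictMono x,
      ∃ s : {s : Finset κ.ord.ToType // s.card = 4}, (∀ y, y ∈ s.1 ↔ ∃ i, x i = y) ∧
        (F s = 1 ↔ PP b g (φ (x 0)) (φ (x 1)) (φ (x 2)) (φ (x 3))) := by
    intro x hx
    have hcard : (Finset.univ.image x).card = 4 := by
      rw [Finset.card_image_of_injective _ hx.injective]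
      simp
    refine ⟨⟨Finset.univ.image x, hcard⟩, fun y => by simp, ?_⟩
    have huniq : x = (Finset.univ.image x).orderEmbOfFin hcard :=
      Finset.orderEmbOfFin_unique hcard (fun i => Finset.mem_image_of_mem _ (Finset.mem_univ _)) hx
    have h0 := congrFun huniq 0
    have h1 := congrFun huniq 1
    have h2 := congrFun huniq 2
    have h3 := congrFun huniq 3
    simp only [hF]
    rw [← h0, ← h1, ← h2, ← h3]
    by_cases h : PP b g (φ (x 0)) (φ (x 1)) (φ (x 2)) (φ (x 3))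
    · simp [h]
    · simp [h]
  rcases hA κ.ord.ToType (by rw [mk_toType, card_ord]) F with ⟨Y, hY, hY'⟩ | ⟨Y, hY, hY'⟩
  · obtain ⟨k, hk1, hk2⟩ := exists_strictMono_of_card Y c hY.ge
    obtain ⟨i₁, i₂, i₃, i₄, h12, h23, h34, hP⟩ := exists_PP hG c hc hcof hkap
      (fun i => φ (k i)) (fun i j hij => hk1.injective (φ.injective hij))
    have hx : StrictMono ![k i₁, k i₂, k i₃, k i₄] := by
      refine Fin.strictMono_iff_lt_succ.2 fun i => ?_
      fin_cases i
      · exact hk1 h12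
      · exact hk1 h23
      · exact hk1 h34
    obtain ⟨s, hs1, hs2⟩ := hFval _ hx
    have h0 := hY' s (by
      intro y hy
      obtain ⟨i, rfl⟩ := (hs1 y).1 hy
      fin_cases i <;> exact hk2 _)
    have h1 := hs2.2 hP
    rw [h0] at h1
    exact absurd h1 (by decide)
  · have hfin : Y.Finite := by
      rw [← lt_aleph0_iff_set_finite, hY]
      exact_mod_cast natCast_lt_aleph0 (n := 5)
    have hcard : hfin.toFinset.card = 5 := by
      have h1 : #Y = (hfin.toFinset.card : Cardinal) := by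
        rw [← Cardinal.mk_coe_finset]
        simp
      rw [hY] at h1
      exact_mod_cast h1.symm
    set e := hfin.toFinset.orderEmbOfFin hcard with he
    have hmem : ∀ i, e i ∈ Y := fun i =>
      hfin.mem_toFinset.1 (Finset.orderEmbOfFin_mem hfin.toFinset hcard i)
    have hQ : ∀ a : Fin 4 → Fin 5, StrictMono a →
        PP b g (φ (e (a 0))) (φ (e (a 1))) (φ (e (a 2))) (φ (e (a 3))) := by
      intro a ha
      obtain ⟨s, hs1, hs2⟩ := hFval (fun i => e (a i)) (e.strictMono.comp ha)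
      exact hs2.1 (hY' s (by
        intro y hy
        obtain ⟨i, rfl⟩ := (hs1 y).1 hy
        exact hmem _))
    have q1 := hQ ![0, 1, 2, 3] (by decide)
    have q2 := hQ ![1, 2, 3, 4] (by decide)
    have q3 := hQ ![0, 2, 3, 4] (by decide)
    exact no_five' hG _ _ _ _ _ q1 q2 q3

/-- The negative partition relation for all cardinals up to `2^(2^{<ℵ_{ω₁}})`. -/
theorem not_arrow_of_le (κ : Cardinal.{u})
    (hκ : κ ≤ (2 : Cardinal.{u}) ^ ((2 : Cardinal.{u}) ^< ℵ_ (ω_ 1))) :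
    ¬ Arrow κ 4 (ℵ_ (ω_ 1)) 5 := by
  obtain ⟨b, g, hG⟩ := exists_good.{u}
  have hνne : Nonempty ((2 : Cardinal.{u}) ^< ℵ_ (ω_ 1)).ord.ToType := by
    rw [← mk_ne_zero_iff, mk_toType, card_ord]
    have : (2 : Cardinal.{u}) ^ (0 : Cardinal.{u}) ≤ (2 : Cardinal.{u}) ^< ℵ_ (ω_ 1) :=
      le_powerlt _ (aleph_pos _)
    rw [power_zero] at this
    exact (zero_lt_one.trans_le this).ne'
  obtain ⟨φ⟩ : Nonempty (κ.ord.ToType ↪ (((2 : Cardinal.{u}) ^< ℵ_ (ω_ 1)).ord.ToType → Bool)) := by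
    rw [← Cardinal.le_def]
    simpa using hκ
  have hcof : ℵ₀ < (ℵ_ (ω_ 1) : Cardinal.{u}).ord.cof := by
    rw [ord_aleph, cof_map_of_isNormal isNormal_omega (isSuccLimit_omega 1), cof_omega_one]
    exact aleph0_lt_aleph_one
  refine not_arrow_aux hG _ (aleph0_le_aleph _) hcof ?_ κ φ
  intro β
  have hβ : pos β < ω_ 1 := (pos_lt β).trans_eq (ord_aleph 1)
  refine ⟨aleph_lt_aleph.2 hβ, ℵ_ (pos β + 1), ?_, isRegular_aleph_add_one _, ?_⟩
  · exact aleph_le_aleph.2 ((isSuccLimit_omega 1).add_one_lt hβ).le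
  · exact aleph_lt_aleph.2 (lt_add_one _)

end Pool.Agent.Par4
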