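import Mathlib
import Pool.Agent.Par4.Neg2

/-!
# The positive stepping-up lemma (Erdős–Rado ramification)
-/

open Cardinal Ordinal Set Order

universe u

namespace Pool.Agent.Par4

section Ramification

variable {X : Type u} [LinearOrder X] [WellFoundedLT X] (f : Finset X → Prop) (r : ℕ)

open Classical in
/-- The ramification predicate. -/
noncomputable def EE (x : X) : X → Prop :=
  (wellFounded_lt (α := X)).fix fun y IH => y < x ∧ ∀ s : Finset X, s.card = r →
    (∀ z ∈ s, ∃ h : z < y, IH z h) → (f (insert y s) ↔ f (insert x s))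

open Classical in
theorem EE_iff (x y : X) : EE f r x y ↔ y < x ∧ ∀ s : Finset X, s.card = r →
    (∀ z ∈ s, z < y ∧ EE f r x z) → (f (insert y s) ↔ f (insert x s)) := by
  unfold EE
  rw [WellFounded.fix_eq]
  simp only [exists_prop]

theorem EE_lt {x y : X} (h : EE f r x y) : y < x := ((EE_iff f r x y).1 h).1

theorem EE_coh {x y : X} (h : EE f r x y) : ∀ z, z < y → (EE f r y z ↔ EE f r x z) := by
  classical
  intro z
  induction z using WellFoundedLT.induction with
  | ind z ih =>
    intro hz
    rw [EE_iff f r y z, EE_iff f r x z]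
    have h' := (EE_iff f r x y).1 h
    constructor
    · rintro ⟨h1, h2⟩
      refine ⟨hz.trans h'.1, fun s hs hs' => ?_⟩
      rw [h2 s hs fun w hw => ⟨(hs' w hw).1, (ih w (hs' w hw).1 ((hs' w hw).1.trans hz)).2
        (hs' w hw).2⟩]
      exact h'.2 s hs fun w hw => ⟨(hs' w hw).1.trans hz, (hs' w hw).2⟩
    · rintro ⟨h1, h2⟩
      refine ⟨hz, fun s hs hs' => ?_⟩
      have hs'' : ∀ w ∈ s, w < z ∧ EE f r x w := fun w hw =>
        ⟨(hs' w hw).1, (ih w (hs' w hw).1 ((hs' w hw).1.trans hz)).1 (hs' w hw).2⟩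
      rw [h2 s hs hs'']
      exact (h'.2 s hs fun w hw => ⟨(hs'' w hw).1.trans hz, (hs'' w hw).2⟩).symm

/-- The set of predecessors of `x` in the ramification tree. -/
def ES (x : X) : Set X := {y | EE f r x y}

/-- The level of `x` in the ramification tree. -/
noncomputable def rho (x : X) : Ordinal.{u} := typeLT (ES f r x)

theorem rho_eq_typein {x : X} (y : ES f r x) : rho f r y.1 = typein (α := ES f r x) (· < ·) y := by
  have h := EE_coh f r (x := x) (y := y.1) y.2
  rw [← Ordinal.type_Iio_lt]
  unfold rho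
  apply Ordinal.type_eq.2
  refine ⟨⟨⟨fun z => ⟨⟨z.1, (h z.1 (EE_lt f r z.2)).1 z.2⟩, EE_lt f r z.2⟩,
    fun z => ⟨z.1.1, (h z.1.1 z.2).2 z.1.2⟩, fun z => rfl, fun z => rfl⟩, ?_⟩⟩
  intro a b
  exact Iff.rfl

theorem rho_lt {x y : X} (h : EE f r x y) : rho f r y < rho f r x := by
  rw [rho_eq_typein f r (⟨y, h⟩ : ES f r x)]
  exact typein_lt_type _ _

theorem rho_lt_rho {x y z : X} (hy : EE f r x y) (hz : EE f r x z) :
    rho f r y < rho f r z ↔ y < z := by
  rw [rho_eq_typein f r (⟨y, hy⟩ : ES f r x), rho_eq_typein f r (⟨z, hz⟩ : ES f r x),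
    typein_lt_typein]
  exact Iff.rfl

theorem rho_inj {x y z : X} (hy : EE f r x y) (hz : EE f r x z)
    (h : rho f r y = rho f r z) : y = z := by
  rcases lt_trichotomy y z with h1 | h1 | h1
  · exact absurd h ((rho_lt_rho f r hy hz).2 h1).ne
  · exact h1
  · exact absurd h ((rho_lt_rho f r hz hy).2 h1).ne'

theorem exists_rho_eq {x : X} {α : Ordinal.{u}} (h : α < rho f r x) :
    ∃ y, EE f r x y ∧ rho f r y = α := by
  obtain ⟨y, rfl⟩ := typein_surj (α := ES f r x) (· < ·) h
  exact ⟨y.1, y.2, rho_eq_typein f r y⟩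

open Classical in
/-- Codes determine elements. -/
theorem code_inj (x : X) : ∀ y, rho f r x = rho f r y →
    (∀ s t : Finset X, s.card = r → t.card = r → (∀ z ∈ s, EE f r x z) → (∀ z ∈ t, EE f r y z) →
      s.image (rho f r) = t.image (rho f r) → (f (insert x s) ↔ f (insert y t))) → x = y := by
  induction x using WellFoundedLT.induction with
  | ind x ih =>
    intro y hxy hc
    have hsame : ∀ u v, EE f r x u → EE f r y v → rho f r u = rho f r v → u = v := by
      intro u v hu hv huv
      refine ih u (EE_lt f r hu) v huv fun s t hs ht hs' ht' hst => ?_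
      have hs2 : ∀ z ∈ s, z < u ∧ EE f r x z := fun z hz =>
        ⟨EE_lt f r (hs' z hz), (EE_coh f r hu z (EE_lt f r (hs' z hz))).1 (hs' z hz)⟩
      have ht2 : ∀ z ∈ t, z < v ∧ EE f r y z := fun z hz =>
        ⟨EE_lt f r (ht' z hz), (EE_coh f r hv z (EE_lt f r (ht' z hz))).1 (ht' z hz)⟩
      rw [((EE_iff f r x u).1 hu).2 s hs hs2, ((EE_iff f r y v).1 hv).2 t ht ht2]
      exact hc s t hs ht (fun z hz => (hs2 z hz).2) (fun z hz => (ht2 z hz).2) hst
    have hE : ∀ z, EE f r x z ↔ EE f r y z := by
      intro z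
      constructor
      · intro hz
        have h1 : rho f r z < rho f r y := hxy ▸ rho_lt f r hz
        obtain ⟨v, hv, hv'⟩ := exists_rho_eq f r h1
        rw [hsame z v hz hv hv'.symm]
        exact hv
      · intro hz
        have h1 : rho f r z < rho f r x := hxy ▸ rho_lt f r hz
        obtain ⟨v, hv, hv'⟩ := exists_rho_eq f r h1
        rw [← hsame v z hv hz hv']
        exact hv
    have hf : ∀ s : Finset X, s.card = r → (∀ z ∈ s, EE f r x z) →
        (f (insert x s) ↔ f (insert y s)) := fun s hs hs' =>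
      hc s s hs hs hs' (fun z hz => (hE z).1 (hs' z hz)) rfl
    rcases lt_trichotomy x y with h | h | h
    · have : EE f r y x := (EE_iff f r y x).2 ⟨h, fun s hs hs' =>
        hf s hs fun z hz => (hE z).2 (hs' z hz).2⟩
      exact absurd (EE_lt f r ((hE x).2 this)) (lt_irrefl _)
    · exact h
    · have : EE f r x y := (EE_iff f r x y).2 ⟨h, fun s hs hs' =>
        (hf s hs fun z hz => (hs' z hz).2).symm⟩
      exact absurd (EE_lt f r ((hE y).1 this)) (lt_irrefl _)

theorem mk_finset_lt {A : Type u} {κ : Cardinal.{u}} (hκ : ℵ₀ < κ) (hA : #A < κ) :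
    #(Finset A) < κ := by
  rcases finite_or_infinite A with h | h
  · exact (lt_aleph0_of_finite _).trans hκ
  · rwa [mk_finset_of_infinite]

theorem self_le_two_powerlt (κ : Cardinal.{u}) : κ ≤ (2 : Cardinal.{u}) ^< κ := by
  by_contra h
  push Not at h
  exact absurd (le_powerlt 2 h) (not_le.2 (cantor _))

open Classical in
/-- A set of size larger than `2^{<κ}` has an element of level at least `κ`. -/
theorem exists_long {κ : Cardinal.{u}} (hκ : ℵ₀ < κ) (hX : (2 : Cardinal.{u}) ^< κ < #X) :
    ∃ x : X, κ.ord ≤ rho f r x := by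
  by_contra hcon
  push Not at hcon
  have hex : ∀ x : X, ∃ a : κ.ord.ToType, pos a = rho f r x := fun x => exists_pos (hcon x)
  choose lev hlev using hex
  have hlev2 : ∀ x y, EE f r x y → lev y < lev x := by
    intro x y h
    rw [← pos_lt_pos, hlev, hlev]
    exact rho_lt f r h
  have himg : ∀ s t : Finset X, s.image lev = t.image lev →
      s.image (rho f r) = t.image (rho f r) := by
    intro s t h
    have h1 : ∀ s : Finset X, s.image (rho f r) = (s.image lev).image pos := by
      intro s
      rw [Finset.image_image]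
      exact Finset.image_congr fun x _ => (hlev x).symm
    rw [h1, h1, h]
  set cd : X → Set (Finset κ.ord.ToType) := fun x =>
    {w | ∃ s : Finset X, s.card = r ∧ (∀ z ∈ s, EE f r x z) ∧ s.image lev = w ∧ f (insert x s)}
    with hcd
  have hinj : ∀ x y, lev x = lev y → cd x = cd y → x = y := by
    intro x y hxy hc
    refine code_inj f r x y (by rw [← hlev, ← hlev, hxy]) fun s t hs ht hs' ht' hst => ?_
    have hst' : s.image lev = t.image lev := by
      have h1 : ∀ s : Finset X, (s.image lev).image pos = s.image (rho f r) := by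
        intro s
        rw [Finset.image_image]
        exact Finset.image_congr fun x _ => hlev x
      rw [← h1, ← h1] at hst
      exact Finset.image_injective pos_injective hst
    have key : ∀ x : X, ∀ s : Finset X, s.card = r → (∀ z ∈ s, EE f r x z) →
        (f (insert x s) ↔ s.image lev ∈ cd x) := by
      intro x s hs hs'
      constructor
      · intro h
        exact ⟨s, hs, hs', rfl, h⟩
      · rintro ⟨s₂, h1, h2, h3, h4⟩
        have : s₂ = s := by
          have h5 := himg _ _ h3
          ext z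
          constructor
          · intro hz
            have : rho f r z ∈ s.image (rho f r) := h5 ▸ Finset.mem_image_of_mem _ hz
            obtain ⟨w, hw, hw'⟩ := Finset.mem_image.1 this
            rwa [← rho_inj f r (hs' w hw) (h2 z hz) hw']
          · intro hz
            have : rho f r z ∈ s₂.image (rho f r) := h5 ▸ Finset.mem_image_of_mem _ hz
            obtain ⟨w, hw, hw'⟩ := Finset.mem_image.1 this
            rwa [← rho_inj f r (h2 w hw) (hs' z hz) hw']
        rwa [this] at h4
    rw [key x s hs hs', key y t ht ht', hc, hst']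
  have hfib : ∀ α : κ.ord.ToType, #({x | lev x = α} : Set X) ≤ (2 : Cardinal.{u}) ^< κ := by
    intro α
    have hi : Function.Injective fun x : ({x | lev x = α} : Set X) =>
        ({w | w.map (Function.Embedding.subtype _) ∈ cd x.1} : Set (Finset (Iio α))) := by
      rintro ⟨x, hx⟩ ⟨y, hy⟩ hxy
      have hx' : lev x = α := hx
      have hy' : lev y = α := hy
      have h1 : ∀ w : Finset (Iio α), w.map (Function.Embedding.subtype _) ∈ cd x ↔
          w.map (Function.Embedding.subtype _) ∈ cd y := fun w => by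
        have := congrArg (fun S : Set (Finset (Iio α)) => w ∈ S) hxy
        exact iff_of_eq this
      have hsub : ∀ x, lev x = α → ∀ w ∈ cd x, ∃ w' : Finset (Iio α),
          w'.map (Function.Embedding.subtype _) = w := by
        rintro x hx _ ⟨s, _, hs, rfl, _⟩
        refine ⟨(s.image lev).subtype (· ∈ Iio α), ?_⟩
        rw [Finset.subtype_map]
        rw [Finset.filter_true_of_mem]
        intro a ha
        obtain ⟨z, hz, rfl⟩ := Finset.mem_image.1 ha
        have := hlev2 x z (hs z hz)
        rw [hx] at this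
        exact this
      refine Subtype.ext (hinj x y (hx'.trans hy'.symm) ?_)
      ext w
      constructor
      · intro hw
        obtain ⟨w', rfl⟩ := hsub x hx' w hw
        exact (h1 w').1 hw
      · intro hw
        obtain ⟨w', rfl⟩ := hsub y hy' w hw
        exact (h1 w').2 hw
    refine (mk_le_of_injective hi).trans ?_
    rw [mk_set]
    exact le_powerlt 2 (mk_finset_lt hκ (mk_Iio_toType_ord_lt α))
  have hcov : (univ : Set X) ⊆ ⋃ α : κ.ord.ToType, {x | lev x = α} := fun x _ =>
    mem_iUnion.2 ⟨lev x, rfl⟩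
  have hle : #X ≤ (2 : Cardinal.{u}) ^< κ := by
    calc #X = #(univ : Set X) := mk_univ.symm
      _ ≤ #(⋃ α : κ.ord.ToType, {x | lev x = α} : Set X) := mk_le_mk_of_subset hcov
      _ ≤ #κ.ord.ToType * ⨆ α : κ.ord.ToType, #({x | lev x = α} : Set X) := mk_iUnion_le _
      _ ≤ (2 : Cardinal.{u}) ^< κ * (2 : Cardinal.{u}) ^< κ := by
        refine mul_le_mul' ?_ (ciSup_le' hfib)
        rw [mk_toType, card_ord]
        exact self_le_two_powerlt κ
      _ = (2 : Cardinal.{u}) ^< κ := mul_eq_self (hκ.le.trans (self_le_two_powerlt κ))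
  exact absurd hle (not_le.2 hX)

end Ramification

/-- The stepping-up lemma. -/
theorem step_up {κ : Cardinal.{u}} (hκ : ℵ₀ < κ) {r : ℕ} {c d : Cardinal.{u}}
    (h : Arrow κ r c d) {μ : Cardinal.{u}} (hμ : (2 : Cardinal.{u}) ^< κ < μ) :
    Arrow μ (r + 1) c (d + 1) := by
  classical
  intro X hX F
  obtain ⟨_, _, _⟩ := Cardinal.exists_ord_eq_type_lt X
  set f : Finset X → Prop := fun s => ∃ h : s.card = r + 1, F ⟨s, h⟩ = 1 with hf
  obtain ⟨x, hx⟩ := exists_long f r hκ (by rwa [hX])
  have hcard : κ ≤ #(ES f r x) := by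
    have h1 := card_le_card hx
    rw [card_ord] at h1
    unfold rho at h1
    rwa [card_type] at h1
  obtain ⟨k, hk1, hk2⟩ := exists_strictMono_of_card (ES f r x) κ hcard
  have hkx : ∀ i, k i ≠ x := fun i => (EE_lt f r (hk2 i)).ne
  set ke : κ.ord.ToType ↪ X := ⟨k, hk1.injective⟩ with hke
  have hcard2 : ∀ s : Finset κ.ord.ToType, s.card = r → (insert x (s.map ke)).card = r + 1 := by
    intro s hs
    rw [Finset.card_insert_of_notMem, Finset.card_map, hs]
    intro hmem
    obtain ⟨i, _, hi⟩ := Finset.mem_map.1 hmem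
    exact hkx i hi
  -- the key homogeneity property
  have hhom : ∀ (i : κ.ord.ToType) (s : Finset κ.ord.ToType), s.card = r → (∀ j ∈ s, j < i) →
      (f (insert (k i) (s.map ke)) ↔ f (insert x (s.map ke))) := by
    intro i s hs hs'
    refine ((EE_iff f r x (k i)).1 (hk2 i)).2 (s.map ke) (by rw [Finset.card_map, hs]) ?_
    intro z hz
    obtain ⟨j, hj, rfl⟩ := Finset.mem_map.1 hz
    exact ⟨hk1 (hs' j hj), hk2 j⟩
  have hFf : ∀ s : {s : Finset X // s.card = r + 1}, F s = 1 ↔ f s.1 := fun s =>
    ⟨fun h => ⟨s.2, h⟩, fun ⟨_, h⟩ => h⟩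
  -- decomposition of an `(r+1)`-subset of the image
  have hdec : ∀ s : Finset κ.ord.ToType, s.card = r + 1 → ∃ (i : κ.ord.ToType)
      (t : Finset κ.ord.ToType), t.card = r ∧ (∀ j ∈ t, j < i) ∧ s = insert i t := by
    intro s hs
    have hne : s.Nonempty := by
      rw [← Finset.card_pos, hs]
      omega
    refine ⟨s.max' hne, s.erase (s.max' hne), ?_, ?_, ?_⟩
    · rw [Finset.card_erase_of_mem (Finset.max'_mem _ _), hs]
      omega
    · intro j hj
      exact lt_of_le_of_ne (Finset.le_max' _ _ (Finset.mem_of_mem_erase hj))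
        (Finset.ne_of_mem_erase hj)
    · rw [Finset.insert_erase (Finset.max'_mem _ _)]
  have hpull : ∀ (Y : Set κ.ord.ToType) (s : Finset X), (s : Set X) ⊆ k '' Y →
      ∃ s' : Finset κ.ord.ToType, (s' : Set κ.ord.ToType) ⊆ Y ∧ s'.map ke = s := by
    intro Y s hs
    have h1 : ∀ z ∈ s, ∃ i ∈ Y, k i = z := fun z hz => hs hz
    refine ⟨s.preimage k hk1.injective.injOn, ?_, ?_⟩
    · intro i hi
      have hi' : k i ∈ s := by simpa using hi
      obtain ⟨j, hj, hj'⟩ := h1 _ hi'
      rwa [← hk1.injective hj']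
    · ext z
      simp only [Finset.mem_map, Finset.mem_preimage]
      constructor
      · rintro ⟨i, hi, rfl⟩
        exact hi
      · intro hz
        obtain ⟨i, hi, rfl⟩ := h1 z hz
        exact ⟨i, hz, rfl⟩
  rcases h κ.ord.ToType (by rw [mk_toType, card_ord])
    (fun s => F ⟨insert x (s.1.map ke), hcard2 s.1 s.2⟩) with ⟨Y, hY, hY'⟩ | ⟨Y, hY, hY'⟩
  · left
    refine ⟨k '' Y, by rw [mk_image_eq hk1.injective, hY], fun s hs => ?_⟩
    obtain ⟨s', hs'1, hs'2⟩ := hpull Y s.1 hs
    have hs'c : s'.card = r + 1 := by rw [← s.2, ← hs'2, Finset.card_map]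
    obtain ⟨i, t, ht1, ht2, ht3⟩ := hdec s' hs'c
    have h0 := hY' ⟨t, ht1⟩ (fun j hj => hs'1 (by
      rw [ht3]; exact Finset.mem_coe.2 (Finset.mem_insert_of_mem (Finset.mem_coe.1 hj))))
    by_contra hne
    have h1 : F s = 1 := by
      have : ∀ a : Fin 2, a ≠ 0 → a = 1 := by decide
      exact this _ hne
    rw [hFf, ← hs'2, ht3, Finset.map_insert] at h1
    have h2 := (hhom i t ht1 ht2).1 h1
    have h3 := (hFf ⟨insert x (t.map ke), hcard2 t ht1⟩).2 h2
    have h4 : F ⟨insert x (t.map ke), hcard2 t ht1⟩ = 0 := h0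
    rw [h4] at h3
    exact absurd h3 (by decide)
  · right
    refine ⟨insert x (k '' Y), ?_, fun s hs => ?_⟩
    · rw [mk_insert, mk_image_eq hk1.injective, hY]
      rintro ⟨i, _, hi⟩
      exact hkx i hi
    · rw [hFf]
      by_cases hxs : x ∈ s.1
      · obtain ⟨s', hs'1, hs'2⟩ := hpull Y (s.1.erase x) (by
          intro z hz
          have hz' : z ∈ s.1.erase x := hz
          rcases hs (Finset.mem_coe.2 (Finset.mem_of_mem_erase hz')) with h | h
          · exact absurd h (Finset.ne_of_mem_erase hz')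
          · exact h)
        have hs'c : s'.card = r := by
          rw [← Finset.card_map ke, hs'2, Finset.card_erase_of_mem hxs, s.2]
          omega
        have h0 : f (insert x (s'.map ke)) := (hFf _).1 (hY' ⟨s', hs'c⟩ hs'1)
        have h1 : insert x (s'.map ke) = s.1 := by
          rw [hs'2, Finset.insert_erase hxs]
        rwa [h1] at h0
      · obtain ⟨s', hs'1, hs'2⟩ := hpull Y s.1 (by
          intro z hz
          rcases hs hz with h | h
          · rw [h] at hz
            exact absurd hz hxs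
          · exact h)
        have hs'c : s'.card = r + 1 := by rw [← s.2, ← hs'2, Finset.card_map]
        obtain ⟨i, t, ht1, ht2, ht3⟩ := hdec s' hs'c
        have h0 := (hFf _).1 (hY' ⟨t, ht1⟩ (fun j hj => hs'1 (by
          rw [ht3]; exact Finset.mem_coe.2 (Finset.mem_insert_of_mem (Finset.mem_coe.1 hj)))))
        rw [← hs'2, ht3, Finset.map_insert]
        exact (hhom i t ht1 ht2).2 h0

end Pool.Agent.Par4
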