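import Mathlib
import Pool.Agent.Par4.Step

/-!
# `ℵ_{ω₁} → (ℵ_{ω₁}, 3)²` (a case of the Erdős–Dushnik–Miller theorem)
-/

open Cardinal Ordinal Set Order

universe u

namespace Pool.Agent.Par4

section

variable {X : Type u} (adj : X → X → Prop)

/-- Independent sets of a graph. -/
def Indep (S : Set X) : Prop := ∀ x ∈ S, ∀ y ∈ S, ¬ adj x y

/-- Neighbourhood of a set. -/
def Nb (S : Set X) : Set X := {y | ∃ x ∈ S, adj x y}

/-- Regular case. -/
theorem exists_indep_regular (hsymm : ∀ x y, adj x y → adj y x) (hirr : ∀ x, ¬ adj x x)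
    (htri : ∀ x, Indep adj {y | adj x y}) {κ : Cardinal.{u}} (hκ : κ.IsRegular) (A : Set X)
    (hA : κ ≤ #A) : ∃ B ⊆ A, Indep adj B ∧ κ ≤ #B := by
  by_cases hdeg : ∃ x, κ ≤ #({y | adj x y} ∩ A : Set X)
  · obtain ⟨x, hx⟩ := hdeg
    exact ⟨_, inter_subset_right, fun y hy z hz => htri x y hy.1 z hz.1, hx⟩
  push Not at hdeg
  -- a maximal independent subset
  obtain ⟨M, hM1, hM2⟩ : ∃ M, (M ⊆ A ∧ Indep adj M) ∧
      ∀ M', (M' ⊆ A ∧ Indep adj M') → M ⊆ M' → M' = M := by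
    obtain ⟨M, hM⟩ := zorn_subset {M : Set X | M ⊆ A ∧ Indep adj M} (by
      intro c hc hchain
      refine ⟨⋃₀ c, ⟨sUnion_subset fun s hs => (hc hs).1, ?_⟩, fun s hs => subset_sUnion_of_mem hs⟩
      rintro x ⟨s, hs, hxs⟩ y ⟨t, ht, hyt⟩
      rcases hchain.total hs ht with h | h
      · exact (hc ht).2 x (h hxs) y hyt
      · exact (hc hs).2 x hxs y (h hyt))
    exact ⟨M, hM.prop, fun M' hM' hsub => (hM.eq_of_subset hM' hsub).symm⟩
  refine ⟨M, hM1.1, hM1.2, ?_⟩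
  by_contra hlt
  have hlt' : #M < κ := not_le.1 hlt
  have hcov : A ⊆ M ∪ ⋃ m : M, ({y | adj m.1 y} ∩ A) := by
    intro y hy
    by_cases hyM : y ∈ M
    · exact .inl hyM
    right
    by_contra hno
    have hno' : ∀ m ∈ M, ¬ adj m y := fun m hm h => hno (mem_iUnion.2 ⟨⟨m, hm⟩, h, hy⟩)
    have : insert y M = M := hM2 _ ⟨insert_subset hy hM1.1, by
      rintro a (rfl | ha) b (rfl | hb)
      · exact hirr _
      · exact fun h => hno' b hb (hsymm _ _ h)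
      · exact hno' a ha
      · exact hM1.2 a ha b hb⟩ (subset_insert _ _)
    exact hyM (this ▸ mem_insert y M)
  have h1 : #(⋃ m : M, ({y | adj m.1 y} ∩ A) : Set X) < κ :=
    (card_iUnion_lt_iff_forall_of_isRegular hκ hlt').2 fun m => hdeg m.1
  have h2 : #A < κ := (mk_le_mk_of_subset hcov).trans_lt
    ((mk_union_le _ _).trans_lt (add_lt_of_lt hκ.aleph0_le hlt' h1))
  exact absurd hA (not_le.2 h2)

/-- Singular case `ℵ_{ω₁}`. -/
theorem exists_indep_aleph (hsymm : ∀ x y, adj x y → adj y x) (hirr : ∀ x, ¬ adj x x)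
    (htri : ∀ x, Indep adj {y | adj x y}) (hX : #X = ℵ_ (ω_ 1)) :
    ∃ B : Set X, Indep adj B ∧ ℵ_ (ω_ 1) ≤ #B := by
  by_cases hdeg : ∃ x, ℵ_ (ω_ 1) ≤ #({y | adj x y} : Set X)
  · obtain ⟨x, hx⟩ := hdeg
    exact ⟨_, htri x, hx⟩
  push Not at hdeg
  have hnm : NoMaxOrder (ℵ_ 1 : Cardinal.{u}).ord.ToType := noMaxOrder_toType (aleph0_le_aleph 1)
  have hposlt : ∀ γ : (ℵ_ 1 : Cardinal.{u}).ord.ToType, pos γ < ω_ 1 := fun γ =>
    (pos_lt γ).trans_eq (ord_aleph 1)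
  have hkap0 : ∀ γ : (ℵ_ 1 : Cardinal.{u}).ord.ToType, ℵ₀ ≤ kap γ := fun γ => aleph0_le_aleph _
  have hkapmono : ∀ γ δ : (ℵ_ 1 : Cardinal.{u}).ord.ToType, γ ≤ δ → kap γ ≤ kap δ :=
    fun γ δ h => aleph_le_aleph.2 (pos_le_pos.2 h)
  -- every cardinal below `ℵ_{ω₁}` is below some `kap`
  have hsmall : ∀ c : Cardinal.{u}, c < ℵ_ (ω_ 1) →
      ∃ γ : (ℵ_ 1 : Cardinal.{u}).ord.ToType, c ≤ kap γ := by
    intro c hc
    rcases lt_or_ge c ℵ₀ with h | h
    · have : Nonempty (ℵ_ 1 : Cardinal.{u}).ord.ToType :=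
        nonempty_toType_of_aleph0_le (aleph0_le_aleph 1)
      exact ⟨Classical.arbitrary _, h.le.trans (aleph0_le_aleph _)⟩
    · obtain ⟨o, rfl⟩ := mem_range_aleph_iff.2 h
      rw [aleph_lt_aleph, ← ord_aleph] at hc
      obtain ⟨x, rfl⟩ := exists_pos hc
      exact ⟨x, le_rfl⟩
  -- the sets `A β`
  have hA : ∀ β : (ℵ_ 1 : Cardinal.{u}).ord.ToType, ∃ (A : Set X)
      (δ : (ℵ_ 1 : Cardinal.{u}).ord.ToType), Indep adj A ∧ kap β < #A ∧ #(Nb adj A) ≤ kap δ := by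
    intro β
    set κ : Cardinal.{u} := ℵ_ (pos β + 1 + 1) with hκdef
    have hκ : κ.IsRegular := isRegular_aleph_add_one _
    have hκlt : κ < ℵ_ (ω_ 1) := aleph_lt_aleph.2
      ((isSuccLimit_omega 1).add_one_lt ((isSuccLimit_omega 1).add_one_lt (hposlt β)))
    obtain ⟨B, -, hB2, hB3⟩ := exists_indep_regular adj hsymm hirr htri hκ univ
      (by rw [mk_univ, hX]; exact hκlt.le)
    have hdeg' : ∀ x : B, ∃ γ : (ℵ_ 1 : Cardinal.{u}).ord.ToType, #({y | adj x.1 y} : Set X) ≤ kap γ :=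
      fun x => hsmall _ (hdeg x.1)
    choose dg hdg using hdeg'
    obtain ⟨γ, hγ⟩ := infinite_pigeonhole_card dg κ hB3 hκ.aleph0_le (by
      rw [hκ.cof_ord, mk_toType, card_ord]
      refine aleph_lt_aleph.2 ?_
      have h01 : (0 : Ordinal.{u}) + 1 ≤ pos β + 1 := by gcongr; exact zero_le
      rw [zero_add] at h01
      exact h01.trans_lt (lt_add_one _))
    set A : Set X := Subtype.val '' (dg ⁻¹' {γ}) with hAdef
    have hAκ : κ ≤ #A := by
      rw [hAdef, mk_image_eq Subtype.val_injective]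
      exact hγ
    obtain ⟨A', hA'1, hA'2⟩ := le_mk_iff_exists_subset.1 hAκ
    obtain ⟨δ, hδ⟩ := hsmall (κ * kap γ) (mul_lt_of_lt (aleph0_le_aleph _) hκlt
      (aleph_lt_aleph.2 (hposlt γ)))
    refine ⟨A', δ, ?_, ?_, ?_⟩
    · intro x hx y hy
      obtain ⟨x', _, rfl⟩ := hA'1 hx
      obtain ⟨y', _, rfl⟩ := hA'1 hy
      exact hB2 _ x'.2 _ y'.2
    · rw [hA'2]
      exact aleph_lt_aleph.2 ((lt_add_one _).trans (lt_add_one _))
    · have hsub : Nb adj A' ⊆ ⋃ x : A', {y | adj x.1 y} := by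
        rintro y ⟨x, hx, hxy⟩
        exact mem_iUnion.2 ⟨⟨x, hx⟩, hxy⟩
      calc #(Nb adj A') ≤ #(⋃ x : A', {y | adj x.1 y} : Set X) := mk_le_mk_of_subset hsub
        _ ≤ #A' * ⨆ x : A', #({y | adj x.1 y} : Set X) := mk_iUnion_le _
        _ ≤ κ * kap γ := by
          refine mul_le_mul' hA'2.le (ciSup_le' fun x => ?_)
          obtain ⟨x', hx', hx''⟩ := hA'1 x.2
          have h3 := hdg x'
          rw [show dg x' = γ from hx', hx''] at h3
          exact h3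
        _ ≤ kap δ := hδ
  choose A δ hA1 hA2 hA3 using hA
  -- a sparse unbounded set
  obtain ⟨S, hS1, hS2⟩ : ∃ S : Set (ℵ_ 1 : Cardinal.{u}).ord.ToType,
      (∀ β ∈ S, ∀ γ ∈ S, β < γ → δ β ≤ γ) ∧ ∀ γ, ∃ β ∈ S, γ ≤ β := by
    obtain ⟨S, hS⟩ := zorn_subset {S : Set (ℵ_ 1 : Cardinal.{u}).ord.ToType |
        ∀ β ∈ S, ∀ γ ∈ S, β < γ → δ β ≤ γ} (by
      intro c hc hchain
      refine ⟨⋃₀ c, ?_, fun s hs => subset_sUnion_of_mem hs⟩
      rintro x ⟨s, hs, hxs⟩ y ⟨t, ht, hyt⟩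
      rcases hchain.total hs ht with h | h
      · exact hc ht x (h hxs) y hyt
      · exact hc hs x hxs y (h hyt))
    refine ⟨S, hS.prop, ?_⟩
    by_contra hcon
    push Not at hcon
    obtain ⟨γ, hγ⟩ := hcon
    have hSc : #S ≤ ℵ₀ := (mk_le_mk_of_subset (fun β hβ => (hγ β hβ).le)).trans (mk_Iic_le γ)
    have hcof : ℵ₀ < Order.cof (ℵ_ 1 : Cardinal.{u}).ord.ToType := by
      rw [Ordinal.cof_toType, isRegular_aleph_one.cof_ord]
      exact aleph0_lt_aleph_one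
    obtain ⟨u, hu⟩ := exists_bound (δ '' S) ((mk_image_le.trans hSc).trans_lt hcof)
    have hnew : insert (max u γ) S = S := by
      refine (hS.eq_of_subset ?_ (subset_insert _ _)).symm
      rintro a (rfl | ha) b (rfl | hb) hab
      · exact absurd hab (lt_irrefl _)
      · exact absurd (hab.trans (hγ b hb)) (not_lt.2 (le_max_right _ _))
      · exact (hu _ ⟨a, ha, rfl⟩).le.trans (le_max_left _ _)
      · exact hS.prop a ha b hb hab
    have h1 : max u γ ∈ S := hnew ▸ mem_insert _ _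
    exact absurd (hγ _ h1) (not_lt.2 (le_max_right _ _))
  -- the final set
  set T : (ℵ_ 1 : Cardinal.{u}).ord.ToType → Set X := fun β =>
    ⋃ γ : ({γ | γ ∈ S ∧ γ < β} : Set (ℵ_ 1 : Cardinal.{u}).ord.ToType), Nb adj (A γ.1) with hT
  have hTcard : ∀ β ∈ S, #(T β) ≤ kap β := by
    intro β hβ
    calc #(T β) ≤ #({γ | γ ∈ S ∧ γ < β} : Set (ℵ_ 1 : Cardinal.{u}).ord.ToType) *
          ⨆ γ : ({γ | γ ∈ S ∧ γ < β} : Set (ℵ_ 1 : Cardinal.{u}).ord.ToType),
            #(Nb adj (A γ.1)) := mk_iUnion_le _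
      _ ≤ ℵ₀ * kap β := by
        refine mul_le_mul' ((mk_le_mk_of_subset fun γ hγ => hγ.2.le).trans (mk_Iic_le β))
          (ciSup_le' fun γ => (hA3 _).trans (hkapmono _ _ (hS1 _ γ.2.1 _ hβ γ.2.2)))
      _ = kap β := aleph0_mul_eq (hkap0 β)
  refine ⟨⋃ β : S, A β.1 \ T β.1, ?_, ?_⟩
  · have key : ∀ β ∈ S, ∀ γ ∈ S, β < γ → ∀ x ∈ A β \ T β, ∀ y ∈ A γ \ T γ, ¬ adj x y := by
      intro β hβ γ hγ hβγ x hx y hy h
      exact hy.2 (mem_iUnion.2 ⟨⟨β, hβ, hβγ⟩, x, hx.1, h⟩)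
    intro x hx y hy h
    obtain ⟨β, hβ⟩ := mem_iUnion.1 hx
    obtain ⟨γ, hγ⟩ := mem_iUnion.1 hy
    rcases lt_trichotomy β.1 γ.1 with h1 | h1 | h1
    · exact key _ β.2 _ γ.2 h1 x hβ y hγ h
    · rw [← h1] at hγ
      exact hA1 _ x hβ.1 y hγ.1 h
    · exact key _ γ.2 _ β.2 h1 y hγ x hβ (hsymm _ _ h)
  · by_contra hcon
    obtain ⟨γ, hγ⟩ := hsmall _ (not_le.1 hcon)
    obtain ⟨β, hβ, hγβ⟩ := hS2 γ
    have h1 : #(A β \ T β : Set X) ≤ kap β :=
      (mk_le_mk_of_subset (subset_iUnion (fun β : S => A β.1 \ T β.1) ⟨β, hβ⟩)).trans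
        (hγ.trans (hkapmono _ _ hγβ))
    have h2 : #(A β) ≤ kap β := by
      calc #(A β) ≤ #(A β \ T β ∪ T β : Set X) := mk_le_mk_of_subset (by
              intro x hx
              by_cases h : x ∈ T β
              · exact .inr h
              · exact .inl ⟨hx, h⟩)
        _ ≤ #(A β \ T β : Set X) + #(T β) := mk_union_le _ _
        _ ≤ kap β + kap β := add_le_add h1 (hTcard β hβ)
        _ = kap β := add_eq_self (hkap0 β)
    exact absurd (hA2 β) (not_lt.2 h2)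

end

/-- `ℵ_{ω₁} → (ℵ_{ω₁}, 3)²`. -/
theorem arrow_two : Arrow (ℵ_ (ω_ 1) : Cardinal.{u}) 2 (ℵ_ (ω_ 1)) 3 := by
  classical
  intro X hX F
  by_contra hcon
  push Not at hcon
  obtain ⟨h0, h1⟩ := hcon
  set adj : X → X → Prop := fun x y => ∃ h : ({x, y} : Finset X).card = 2, F ⟨{x, y}, h⟩ = 1 with hadj
  have hsymm : ∀ x y, adj x y → adj y x := by
    rintro x y ⟨h, h'⟩
    have h2 : ({x, y} : Finset X) = {y, x} := Finset.pair_comm x y
    refine ⟨h2 ▸ h, ?_⟩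
    rw [← h']
    congr 1
    exact Subtype.ext h2.symm
  have hirr : ∀ x, ¬ adj x x := by
    rintro x ⟨h, _⟩
    simp at h
  have hne : ∀ x y, adj x y → x ≠ y := by
    rintro x y h rfl
    exact hirr x h
  have htri : ∀ x, Indep adj {y | adj x y} := by
    intro x y hy z hz hyz
    have hxy : x ≠ y := hne _ _ hy
    have hxz : x ≠ z := hne _ _ hz
    have hyz' : y ≠ z := hne _ _ hyz
    have hthree : #(({x, y, z} : Finset X) : Set X) = 3 := by
      rw [show #(({x, y, z} : Finset X) : Set X) = (({x, y, z} : Finset X).card : Cardinal.{u}) from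
        Cardinal.mk_coe_finset, Finset.card_eq_three.2 ⟨x, y, z, hxy, hxz, hyz', rfl⟩]
      norm_num
    obtain ⟨s, hs1, hs2⟩ := h1 (({x, y, z} : Finset X) : Set X) hthree
    obtain ⟨a, b, hab, hs⟩ := Finset.card_eq_two.1 s.2
    have ha : a = x ∨ a = y ∨ a = z := by
      have : a ∈ (s.1 : Set X) := by rw [hs]; simp
      simpa using hs1 this
    have hb : b = x ∨ b = y ∨ b = z := by
      have : b ∈ (s.1 : Set X) := by rw [hs]; simp
      simpa using hs1 this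
    have hadj2 : adj a b := by
      rcases ha with rfl | rfl | rfl <;> rcases hb with rfl | rfl | rfl <;>
        first
          | exact absurd rfl hab
          | assumption
          | exact hsymm _ _ (by assumption)
    obtain ⟨h3, h4⟩ := hadj2
    apply hs2
    rw [← h4]
    congr 1
    exact Subtype.ext hs
  obtain ⟨B, hB1, hB2⟩ := exists_indep_aleph adj hsymm hirr htri hX
  obtain ⟨B', hB'1, hB'2⟩ := le_mk_iff_exists_subset.1 hB2
  obtain ⟨s, hs1, hs2⟩ := h0 B' hB'2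
  obtain ⟨a, b, hab, hs⟩ := Finset.card_eq_two.1 s.2
  have ha : a ∈ B := hB'1 (hs1 (by rw [hs]; simp))
  have hb : b ∈ B := hB'1 (hs1 (by rw [hs]; simp))
  apply hB1 a ha b hb
  refine ⟨hs ▸ s.2, ?_⟩
  have h3 : F s = 1 := by
    have : ∀ a : Fin 2, a ≠ 0 → a = 1 := by decide
    exact this _ hs2
  rw [← h3]
  congr 1
  exact Subtype.ext hs.symm

/-- The threshold theorem. -/
theorem arrow_iff (κ : Cardinal.{u}) :
    Arrow κ 4 (ℵ_ (ω_ 1)) 5 ↔ (2 : Cardinal.{u}) ^ ((2 : Cardinal.{u}) ^< ℵ_ (ω_ 1)) < κ := by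
  constructor
  · intro h
    by_contra hcon
    exact not_arrow_of_le κ (not_lt.1 hcon) h
  · intro h
    have h1 : ℵ₀ < (ℵ_ (ω_ 1) : Cardinal.{u}) := aleph0_lt_aleph.2 (omega_pos 1)
    have h2 := step_up h1 arrow_two (lt_succ ((2 : Cardinal.{u}) ^< ℵ_ (ω_ 1)))
    have h3 : ℵ₀ < succ ((2 : Cardinal.{u}) ^< ℵ_ (ω_ 1)) :=
      h1.trans_le ((self_le_two_powerlt _).trans (le_succ _))
    have h4 := step_up h3 h2 (μ := κ) (by rwa [powerlt_succ two_ne_zero])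
    have h5 : (3 : Cardinal.{u}) + 1 + 1 = 5 := by norm_num
    rwa [h5] at h4

end Pool.Agent.Par4
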