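import Mathlib

/-!
# The relation `2 ^ (2 ^< κ) → (κ, 5)⁴` fails for `κ = ℵ_{ω₁}`

Put `ρ = 2 ^< κ`, and let `L` be a well-order of type at least `ρ`, divided into intervals (blocks)
`B_i`, `i < cf κ`, with `|B_i| ≤ 2 ^ κ_i`, `κ_i < κ`. Triples of `L` inside one block get colour 1 by
Sierpinski's sign pattern `+ -`, triples meeting three blocks are coloured through the pattern
`+ -` on the indices of the blocks, all other triples get colour 0.

We colour the 4-element subsets of a well-ordered set of functions `L → Bool` of size `2 ^ ρ`.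
A 4-tuple gets colour 1 if its signs (agreement of the well-order with the lexicographic order) are
`+ - +`, or if it is lexicographically monotone and its three first differences satisfy
`δ1 < δ2 < δ3` and have colour 1, or `δ1 < δ3 < δ2` with `δ1, δ3` in one block and `δ2` in a later
block.
-/

universe u

open Cardinal Ordinal Set

namespace Pool.Agent.Par4Gen

/-- The ordinary partition relation `κ → (lam i)^r_{i ∈ ι}`. -/
def Arrow (κ : Cardinal.{u}) {ι : Type} (lam : ι → Cardinal.{u}) (r : ℕ) : Prop :=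
  ∀ X : Type u, #X = κ → ∀ f : {s : Finset X // s.card = r} → ι,
    ∃ (i : ι) (Y : Set X), #Y = lam i ∧
      ∀ s : {s : Finset X // s.card = r}, (s.1 : Set X) ⊆ Y → f s = i

/-! ### Lexicographic comparison of 0-1 sequences -/

section Lex

variable {L : Type u} [LinearOrder L]

/-- `x` and `y` first differ at `l`, and `x l = false`, `y l = true`. -/
def D (x y : L → Bool) (l : L) : Prop := (∀ m < l, x m = y m) ∧ x l = false ∧ y l = true

lemma D.unique {x y : L → Bool} {l m : L} (h : D x y l) (h' : D x y m) : l = m := by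
  rcases lt_trichotomy l m with h1 | h1 | h1
  · have := h'.1 l h1
    rw [h.2.1, h.2.2] at this; exact absurd this (by decide)
  · exact h1
  · have := h.1 m h1
    rw [h'.2.1, h'.2.2] at this; exact absurd this (by decide)

lemma D.asymm {x y : L → Bool} {l m : L} (h : D x y l) (h' : D y x m) : False := by
  rcases lt_trichotomy l m with h1 | h1 | h1
  · have := h'.1 l h1
    rw [h.2.1, h.2.2] at this; exact absurd this (by decide)
  · subst h1
    have := h.2.1
    rw [h'.2.2] at this; exact absurd this (by decide)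
  · have := h.1 m h1
    rw [h'.2.1, h'.2.2] at this; exact absurd this (by decide)

lemma D.ne {x y z : L → Bool} {l m : L} (h : D x y l) (h' : D y z m) : l ≠ m := by
  rintro rfl
  have := h.2.2
  rw [h'.2.1] at this; exact absurd this (by decide)

lemma D.trans_left {x y z : L → Bool} {l m : L} (h : D x y l) (h' : D y z m) (hlm : l < m) :
    D x z l :=
  ⟨fun k hk => (h.1 k hk).trans (h'.1 k (hk.trans hlm)), h.2.1, (h'.1 l hlm) ▸ h.2.2⟩

lemma D.trans_right {x y z : L → Bool} {l m : L} (h : D x y l) (h' : D y z m) (hlm : m < l) :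
    D x z m :=
  ⟨fun k hk => (h.1 k (hk.trans hlm)).trans (h'.1 k hk), (h.1 m hlm).trans h'.2.1, h'.2.2⟩

/-- pointwise negation reverses the lexicographic order -/
def flip (x : L → Bool) : L → Bool := fun l => !(x l)

lemma D_flip {x y : L → Bool} {l : L} : D (flip x) (flip y) l ↔ D y x l := by
  unfold D flip
  constructor
  · rintro ⟨h1, h2, h3⟩
    refine ⟨fun m hm => ?_, by simpa using h3, by simpa using h2⟩
    have := h1 m hm
    simpa using this.symm
  · rintro ⟨h1, h2, h3⟩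
    refine ⟨fun m hm => ?_, by simpa using h3, by simpa using h2⟩
    simp [h1 m hm]

variable [WellFoundedLT L]

lemma exists_D {x y : L → Bool} (h : x ≠ y) : (∃ l, D x y l) ∨ (∃ l, D y x l) := by
  have hne : {l | x l ≠ y l}.Nonempty := by
    by_contra hcon
    rw [not_nonempty_iff_eq_empty] at hcon
    apply h
    funext l
    by_contra hl
    have : l ∈ {l | x l ≠ y l} := hl
    rw [hcon] at this; exact this
  obtain ⟨l, hl, hmin⟩ := wellFounded_lt.has_min _ hne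
  have hmin' : ∀ m < l, x m = y m := by
    intro m hm
    by_contra hcon
    exact hmin m hcon hm
  cases hx : x l
  · cases hy : y l
    · exact absurd (hx.trans hy.symm) hl
    · exact Or.inl ⟨l, hmin', hx, hy⟩
  · cases hy : y l
    · exact Or.inr ⟨l, fun m hm => (hmin' m hm).symm, hy, hx⟩
    · exact absurd (hx.trans hy.symm) hl

/-! ### The function `th` of an increasing family -/

variable {J : Type u} [LinearOrder J] [NoMaxOrder J]

/-- the lexicographically increasing family `x` of functions -/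
def Inc (x : J → L → Bool) : Prop := ∀ α β, α < β → ∃ l, D (x α) (x β) l

lemma exists_th (x : J → L → Bool) (hx : Inc x) :
    ∃ th : J → L, (∀ α, ∃ β, α < β ∧ ∀ γ, β ≤ γ → D (x α) (x γ) (th α)) := by
  have key : ∀ α, ∃ l, ∃ β, α < β ∧ ∀ γ, β ≤ γ → D (x α) (x γ) l := by
    intro α
    obtain ⟨β0, hβ0⟩ := exists_gt α
    obtain ⟨l0, hl0⟩ := hx α β0 hβ0
    have hne : {l | ∃ β, α < β ∧ D (x α) (x β) l}.Nonempty := ⟨l0, β0, hβ0, hl0⟩
    obtain ⟨l, ⟨β, hβ, hl⟩, hmin⟩ := wellFounded_lt.has_min _ hne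
    refine ⟨l, β, hβ, fun γ hγ => ?_⟩
    rcases eq_or_lt_of_le hγ with rfl | hγ
    · exact hl
    · obtain ⟨m, hm⟩ := hx β γ hγ
      rcases lt_trichotomy l m with h1 | h1 | h1
      · exact hl.trans_left hm h1
      · exact absurd h1 (hl.ne hm)
      · exact absurd h1 (hmin m ⟨γ, hβ.trans hγ, hl.trans_right hm h1⟩)
  choose th h using key
  exact ⟨th, h⟩

/-- the defining property of `th` -/
def IsTh (x : J → L → Bool) (th : J → L) : Prop :=
  ∀ α, ∃ β, α < β ∧ ∀ γ, β ≤ γ → D (x α) (x γ) (th α)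

omit [NoMaxOrder J] [WellFoundedLT L] in
lemma IsTh.mono {x : J → L → Bool} {th : J → L} (hx : Inc x) (h : IsTh x th) : Monotone th := by
  intro α β hαβ
  rcases eq_or_lt_of_le hαβ with rfl | hαβ
  · exact le_rfl
  obtain ⟨γ1, -, h1⟩ := h α
  obtain ⟨γ2, -, h2⟩ := h β
  have h1' := h1 (max γ1 γ2) (le_max_left _ _)
  have h2' := h2 (max γ1 γ2) (le_max_right _ _)
  by_contra hcon
  rw [not_le] at hcon
  have hD : D (x β) (x α) (th β) := by
    refine ⟨fun m hm => ?_, h2'.2.1, ?_⟩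
    · rw [h2'.1 m hm, h1'.1 m (hm.trans hcon)]
    · rw [h1'.1 _ hcon]; exact h2'.2.2
  obtain ⟨l, hl⟩ := hx α β hαβ
  exact hl.asymm hD

omit [NoMaxOrder J] [WellFoundedLT L] in
lemma IsTh.D_of_lt {x : J → L → Bool} {th : J → L} (h : IsTh x th) {α β : J}
    (hlt : th α < th β) : D (x α) (x β) (th α) := by
  obtain ⟨γ1, -, h1⟩ := h α
  obtain ⟨γ2, -, h2⟩ := h β
  have h1' := h1 (max γ1 γ2) (le_max_left _ _)
  have h2' := h2 (max γ1 γ2) (le_max_right _ _)
  refine ⟨fun m hm => ?_, h1'.2.1, ?_⟩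
  · rw [h1'.1 m hm, h2'.1 m (hm.trans hlt)]
  · rw [h2'.1 _ hlt]; exact h1'.2.2

omit [NoMaxOrder J] [WellFoundedLT L] in
lemma IsTh.lt_of_D {x : J → L → Bool} {th : J → L} (h : IsTh x th) {α β : J}
    (heq : th α = th β) {l : L} (hl : D (x α) (x β) l) : th α < l := by
  obtain ⟨γ1, -, h1⟩ := h α
  obtain ⟨γ2, -, h2⟩ := h β
  have h1' := h1 (max γ1 γ2) (le_max_left _ _)
  have h2' := h2 (max γ1 γ2) (le_max_right _ _)
  by_contra hcon
  rw [not_lt] at hcon
  rcases eq_or_lt_of_le hcon with hc | hc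
  · have := hl.2.2
    rw [hc, heq, h2'.2.1] at this
    exact absurd this (by decide)
  · have h3 : x α l = x β l := by rw [h1'.1 l hc, h2'.1 l (heq ▸ hc)]
    rw [hl.2.1, hl.2.2] at h3
    exact absurd h3 (by decide)

omit [NoMaxOrder J] [WellFoundedLT L] in
lemma IsTh.bdd {x : J → L → Bool} {th : J → L} (hx : Inc x) (h : IsTh x th) (α : J) :
    ∃ β, ∀ γ, β ≤ γ → th α < th γ := by
  obtain ⟨β, hβ, h1⟩ := h α
  refine ⟨β, fun γ hγ => ?_⟩
  rcases eq_or_lt_of_le (h.mono hx (hβ.le.trans hγ)) with h2 | h2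
  · obtain ⟨δ, -, h3⟩ := h γ
    have h4 := (h1 γ hγ).2.2
    have h5 := (h3 δ le_rfl).2.1
    rw [h2, h5] at h4
    exact absurd h4 (by decide)
  · exact h2

end Lex

/-! ### Cardinality lemmas -/

section Card

lemma exists_strictMono {S : Type u} [LinearOrder S] [WellFoundedLT S] (κ : Cardinal.{u})
    (h : κ ≤ #S) : ∃ g : κ.ord.ToType → S, StrictMono g := by
  have h1 : typeLT κ.ord.ToType ≤ typeLT S := by
    rw [type_toType]
    exact (ord_le_ord.2 h).trans (ord_le_type _)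
  obtain ⟨g⟩ := type_le_iff.1 h1
  exact ⟨g, fun a b hab => g.map_rel_iff.2 hab⟩

/-- a function with bounded fibres has at least `cof J` values -/
lemma cof_le_range {J M : Type u} [LinearOrder J] (t : J → M)
    (hb : ∀ α, ∃ β, ∀ γ, β ≤ γ → t α ≠ t γ) : Order.cof J ≤ #(range t) := by
  choose B hB using hb
  choose a ha using fun e : range t => e.2
  have hcof : IsCofinal (range fun e : range t => B (a e)) := by
    intro γ
    refine ⟨B (a ⟨t γ, γ, rfl⟩), ⟨_, rfl⟩, ?_⟩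
    by_contra hcon
    rw [not_le] at hcon
    exact hB _ γ hcon.le (ha ⟨t γ, γ, rfl⟩)
  exact (Order.cof_le hcof).trans mk_range_le

variable {K : Type u} [LinearOrder K] [WellFoundedLT K]

lemma no_inc {lam : Cardinal.{u}} (hlam : lam.IsRegular) (K' : Set K) (hK' : #K' < lam)
    (r : lam.ord.ToType → K → Bool) (hr : Inc r) (hs : ∀ α β l, D (r α) (r β) l → l ∈ K') :
    False := by
  have : NoMaxOrder lam.ord.ToType := Cardinal.noMaxOrder hlam.aleph0_le
  obtain ⟨th, hth⟩ := exists_th r hr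
  have hth' : IsTh r th := hth
  have h1 := cof_le_range th (fun α => by
    obtain ⟨β, hβ⟩ := hth'.bdd hr α
    exact ⟨β, fun γ hγ => (hβ γ hγ).ne⟩)
  rw [cof_toType, hlam.cof_ord] at h1
  have h2 : #(range th) ≤ #K' := by
    apply mk_le_mk_of_subset
    rintro _ ⟨α, rfl⟩
    obtain ⟨β, -, hβ⟩ := hth α
    exact hs _ _ _ (hβ β le_rfl)
  exact absurd (h1.trans h2) (not_le.2 hK')

/-- the sign pattern `+ -` on a triple -/
def Pat {S : Type u} (r : S → K → Bool) (x y z : S) : Prop :=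
  (∃ l, D (r x) (r y) l) ∧ (∃ l, D (r z) (r y) l)

omit [WellFoundedLT K] in
lemma Pat.contra {S : Type u} {r : S → K → Bool} {x y z w : S} (h : Pat r x y z)
    (h' : Pat r y z w) : False := by
  obtain ⟨-, l, hl⟩ := h
  obtain ⟨⟨m, hm⟩, -⟩ := h'
  exact hl.asymm hm

lemma le_or_le_of_union {S : Type u} {lam : Cardinal.{u}} (hlam : ℵ₀ ≤ lam) (hS : lam ≤ #S)
    (A B : Set S) (h : ∀ x, x ∈ A ∨ x ∈ B) : lam ≤ #A ∨ lam ≤ #B := by
  by_contra hcon
  push Not at hcon
  have h1 : #S ≤ #A + #B := by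
    rw [← mk_univ]
    refine (mk_le_mk_of_subset (?_ : Set.univ ⊆ A ∪ B)).trans (mk_union_le A B)
    intro x _
    exact h x
  exact absurd (hS.trans h1) (not_le.2 (add_lt_of_lt hlam hcon.1 hcon.2))

lemma split {S : Type u} [LinearOrder S] (r : S → K → Bool) (hinj : Function.Injective r)
    (hpat : ∀ x y z, x < y → y < z → ¬ Pat r x y z) {lam : Cardinal.{u}} (hlam : ℵ₀ ≤ lam)
    (hS : lam ≤ #S) : ∃ A : Set S, lam ≤ #A ∧
      ((∀ x ∈ A, ∀ y ∈ A, x < y → ∃ l, D (r x) (r y) l) ∨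
        (∀ x ∈ A, ∀ y ∈ A, x < y → ∃ l, D (r y) (r x) l)) := by
  rcases le_or_le_of_union hlam hS {y | ∀ z, y < z → ∃ l, D (r y) (r z) l}
    {y | ∀ x, x < y → ∃ l, D (r y) (r x) l} (by
      intro y
      by_contra hcon
      simp only [mem_ofPred_eq] at hcon
      push Not at hcon
      obtain ⟨⟨z, hz, hz'⟩, x, hx, hx'⟩ := hcon
      refine hpat x y z hx hz ⟨?_, ?_⟩
      · rcases exists_D (hinj.ne hx.ne) with h | h
        · exact h
        · exact absurd h (by push Not; exact hx')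
      · rcases exists_D (hinj.ne hz.ne) with h | h
        · exact absurd h (by push Not; exact hz')
        · exact h) with h | h
  · exact ⟨_, h, Or.inl fun x hx y _ hxy => hx y hxy⟩
  · exact ⟨_, h, Or.inr fun x _ y hy hxy => hy x hxy⟩

lemma sierp {S : Type u} [LinearOrder S] [WellFoundedLT S] (r : S → K → Bool)
    (hinj : Function.Injective r) (hpat : ∀ x y z, x < y → y < z → ¬ Pat r x y z)
    (K' : Set K) (hs : ∀ x k, r x k = true → k ∈ K') {lam : Cardinal.{u}} (hlam : lam.IsRegular)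
    (hK' : #K' < lam) : #S < lam := by
  by_contra hcon
  rw [not_lt] at hcon
  obtain ⟨A, hA, h | h⟩ := split r hinj hpat hlam.aleph0_le hcon
  · obtain ⟨g, hg⟩ := exists_strictMono (S := A) lam hA
    refine no_inc hlam K' hK' (fun α => r (g α).1) (fun α β hαβ => ?_) (fun α β l hl => ?_)
    · exact h _ (g α).2 _ (g β).2 (hg hαβ)
    · exact hs _ _ hl.2.2
  · obtain ⟨g, hg⟩ := exists_strictMono (S := A) lam hA
    refine no_inc hlam K' hK' (fun α => flip (r (g α).1)) (fun α β hαβ => ?_) (fun α β l hl => ?_)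
    · obtain ⟨l, hl⟩ := h _ (g α).2 _ (g β).2 (hg hαβ)
      exact ⟨l, D_flip.2 hl⟩
    · exact hs _ _ (D_flip.1 hl).2.2

end Card

/-! ### The set-up -/

/-- The set-up for the stepping up. -/
structure Setup (κ θ : Cardinal.{u}) (I L K Q : Type u) [LinearOrder I] [LinearOrder L]
    [LinearOrder K] [LinearOrder Q] where
  hκ : ℵ₀ ≤ κ
  hcof : κ.ord.cof = θ
  hI : Order.cof I = θ
  hθ : θ.IsRegular
  al : I → Cardinal.{u}
  al_mono : Monotone al
  al_inf : ∀ i, ℵ₀ ≤ al i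
  al_lt : ∀ i, al i < κ
  al_Iic : ∀ i, #(Iic i) ≤ al i
  b : L → I
  b_mono : Monotone b
  r : L → K → Bool
  r_inj : ∀ ξ η, b ξ = b η → r ξ = r η → ξ = η
  Ki : I → Set K
  Ki_card : ∀ i, #(Ki i) ≤ al i
  r_supp : ∀ ξ k, r ξ k = true → k ∈ Ki (b ξ)
  q : I → Q → Bool
  q_inj : Function.Injective q
  Q_lt : #Q < θ

namespace Setup

variable {κ θ : Cardinal.{u}} {I L K Q : Type u} [LinearOrder I] [LinearOrder L]
    [LinearOrder K] [LinearOrder Q] (A : Setup κ θ I L K Q)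

/-- the colouring of triples -/
def f (x y z : L) : Prop :=
  (A.b x = A.b y ∧ A.b y = A.b z ∧ Pat A.r x y z) ∨
    (A.b x < A.b y ∧ A.b y < A.b z ∧ Pat A.q (A.b x) (A.b y) (A.b z))

lemma f_contra {x y z w : L} (h : A.f x y z) (h' : A.f y z w) : False := by
  rcases h with ⟨h1, h2, h3⟩ | ⟨h1, h2, h3⟩
  · rcases h' with ⟨_, _, h6⟩ | ⟨h4, _, _⟩
    · exact h3.contra h6
    · exact absurd h2 h4.ne
  · rcases h' with ⟨h4, _, _⟩ | ⟨_, _, h6⟩
    · exact absurd h4 h2.ne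
    · exact h3.contra h6

/-- the conditions on the three differences of a lexicographically monotone 4-tuple -/
def G (d1 d2 d3 : L) : Prop :=
  (d1 < d2 ∧ d2 < d3 ∧ A.f d1 d2 d3) ∨ (d1 < d3 ∧ d3 < d2 ∧ A.b d1 = A.b d3 ∧ A.b d3 < A.b d2)

/-- there is no 5-set -/
lemma no_five (x0 x1 x2 x3 x4 : L → Bool) {d1 d2 d3 d4 : L} (h1 : D x0 x1 d1) (h2 : D x1 x2 d2)
    (h3 : D x2 x3 d3) (h4 : D x3 x4 d4)
    (hG : ∀ e1 e2 e3, D x0 x1 e1 → D x1 x2 e2 → D x2 x3 e3 → A.G e1 e2 e3)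
    (hG' : ∀ e1 e2 e3, D x1 x2 e1 → D x2 x3 e2 → D x3 x4 e3 → A.G e1 e2 e3)
    (hG'' : ∀ e1 e2 e3, D x0 x1 e1 → D x1 x3 e2 → D x3 x4 e3 → A.G e1 e2 e3) : False := by
  have g1 := hG _ _ _ h1 h2 h3
  have g2 := hG' _ _ _ h2 h3 h4
  have l23 : d2 < d3 := by
    rcases g2 with ⟨h, _⟩ | ⟨h, h', _⟩
    · exact h
    · exact h.trans h'
  have l24 : d2 < d4 := by
    rcases g2 with ⟨h, h', _⟩ | ⟨h, _⟩
    · exact h.trans h'
    · exact h
  have g1' : d1 < d2 ∧ A.f d1 d2 d3 := by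
    rcases g1 with ⟨h, _, h'⟩ | ⟨_, h, _⟩
    · exact ⟨h, h'⟩
    · exact absurd h (not_lt.2 l23.le)
  have h13 : D x1 x3 d2 := h2.trans_left h3 l23
  have g3 := hG'' _ _ _ h1 h13 h4
  have g3' : A.f d1 d2 d4 := by
    rcases g3 with ⟨_, _, h'⟩ | ⟨_, h, _⟩
    · exact h'
    · exact absurd h (not_lt.2 l24.le)
  rcases g2 with ⟨_, _, h⟩ | ⟨_, _, h5, h6⟩
  · exact A.f_contra g1'.2 h
  · have hb : A.b d1 = A.b d2 := by
      rcases g3' with ⟨h, _, _⟩ | ⟨_, h, _⟩
      · exact h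
      · exact absurd h5 h.ne
    rcases g1'.2 with ⟨_, h, _⟩ | ⟨h, _, _⟩
    · exact absurd (h5.symm.trans h) h6.ne
    · exact absurd hb h.ne

/-- the family `u` has no 4-tuple satisfying `G` -/
def NoG {J : Type u} [LinearOrder J] (u : J → L → Bool) : Prop :=
  ∀ a0 a1 a2 a3, a0 < a1 → a1 < a2 → a2 < a3 → ∀ d1 d2 d3, D (u a0) (u a1) d1 →
    D (u a1) (u a2) d2 → D (u a2) (u a3) d3 → ¬ A.G d1 d2 d3

variable [WellFoundedLT L] [WellFoundedLT K] [WellFoundedLT Q] [WellFoundedLT I]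

omit [WellFoundedLT Q] [WellFoundedLT I] in
lemma card_le (E : Set L) (hE : ∀ x ∈ E, ∀ y ∈ E, ∀ z ∈ E, x < y → y < z → ¬ A.f x y z)
    (i1 : I) (hi1 : ∀ x ∈ E, A.b x ≤ i1) : #E ≤ A.al i1 := by
  have hfib : ∀ i : Iic i1, #{x | x ∈ E ∧ A.b x = i.1} ≤ A.al i1 := by
    rintro ⟨i, hi⟩
    refine le_trans ?_ (A.al_mono hi)
    rw [← Order.lt_succ_iff]
    refine sierp (S := {x | x ∈ E ∧ A.b x = i}) (fun x => A.r x.1) ?_ ?_ (A.Ki i) ?_
      (isRegular_succ (A.al_inf i)) (Order.lt_succ_iff.2 (A.Ki_card i))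
    · intro x y hxy
      exact Subtype.ext (A.r_inj _ _ (x.2.2.trans y.2.2.symm) hxy)
    · intro x y z hxy hyz hp
      refine hE x.1 x.2.1 y.1 y.2.1 z.1 z.2.1 hxy hyz (Or.inl ⟨?_, ?_, hp⟩)
      · exact x.2.2.trans y.2.2.symm
      · exact y.2.2.trans z.2.2.symm
    · intro x k hk
      have := A.r_supp x.1 k hk
      rwa [x.2.2] at this
  have hsub : E ⊆ ⋃ i : Iic i1, {x | x ∈ E ∧ A.b x = i.1} := by
    intro x hx
    exact mem_iUnion.2 ⟨⟨A.b x, hi1 x hx⟩, hx, rfl⟩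
  calc #E ≤ #(⋃ i : Iic i1, {x | x ∈ E ∧ A.b x = i.1} : Set L) := mk_le_mk_of_subset hsub
    _ ≤ #(Iic i1) * ⨆ i : Iic i1, #{x | x ∈ E ∧ A.b x = i.1} := mk_iUnion_le _
    _ ≤ A.al i1 * A.al i1 := mul_le_mul' (A.al_Iic i1) (ciSup_le' hfib)
    _ = A.al i1 := mul_eq_self (A.al_inf i1)

omit [WellFoundedLT L] [WellFoundedLT K] in
lemma card_image_lt (E : Set L)
    (hE : ∀ x ∈ E, ∀ y ∈ E, ∀ z ∈ E, x < y → y < z → ¬ A.f x y z) : #(A.b '' E) < θ := by
  refine sierp (S := A.b '' E) (fun x => A.q x.1) (fun x y hxy => Subtype.ext (A.q_inj hxy)) ?_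
    Set.univ (fun _ _ _ => mem_univ _) A.hθ (by rw [mk_univ]; exact A.Q_lt)
  rintro ⟨_, x, hx, rfl⟩ ⟨_, y, hy, rfl⟩ ⟨_, z, hz, rfl⟩ hxy hyz hp
  have hxy' : A.b x < A.b y := hxy
  have hyz' : A.b y < A.b z := hyz
  exact hE x hx y hy z hz (A.b_mono.reflect_lt hxy') (A.b_mono.reflect_lt hyz')
    (Or.inr ⟨hxy', hyz', hp⟩)

omit [WellFoundedLT L] [WellFoundedLT K] [WellFoundedLT Q] [WellFoundedLT I] in
lemma no_f_of_NoG {J : Type u} [LinearOrder J] [NoMaxOrder J] {u : J → L → Bool} (hu : Inc u)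
    (hG : A.NoG u) {th : J → L} (hth : IsTh u th) :
    ∀ x ∈ range th, ∀ y ∈ range th, ∀ z ∈ range th, x < y → y < z → ¬ A.f x y z := by
  rintro _ ⟨a1, rfl⟩ _ ⟨a2, rfl⟩ _ ⟨a3, rfl⟩ hxy hyz hf
  obtain ⟨a4, ha4, h4⟩ := hth a3
  have hm := hth.mono hu
  exact hG a1 a2 a3 a4 (hm.reflect_lt hxy) (hm.reflect_lt hyz) ha4 _ _ _
    (hth.D_of_lt hxy) (hth.D_of_lt hyz) (h4 a4 le_rfl) (Or.inl ⟨hxy, hyz, hf⟩)

/-- the core of the proof -/
lemma core (u : κ.ord.ToType → L → Bool) (hu : Inc u) (hG : A.NoG u) : False := by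
  have : NoMaxOrder κ.ord.ToType := Cardinal.noMaxOrder A.hκ
  obtain ⟨th, hth0⟩ := exists_th u hu
  have hth : IsTh u th := hth0
  have hm := hth.mono hu
  have hE := A.no_f_of_NoG hu hG hth
  have hcofJ : Order.cof κ.ord.ToType = θ := by rw [cof_toType, A.hcof]
  -- `b ∘ th` is eventually constant
  have himg : #(range fun α => A.b (th α)) < θ := by
    have h1 := A.card_image_lt _ hE
    have h2 : A.b '' range th = range fun α => A.b (th α) := by
      rw [← range_comp]; rfl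
    rwa [h2] at h1
  have hconst : ∃ α0, ∀ α, α0 ≤ α → A.b (th α0) = A.b (th α) := by
    by_contra hcon
    push Not at hcon
    have := cof_le_range (fun α => A.b (th α)) (fun α => by
      obtain ⟨β, hβ, hne⟩ := hcon α
      refine ⟨β, fun γ hγ heq => hne ?_⟩
      have h1 : A.b (th α) ≤ A.b (th β) := A.b_mono (hm hβ)
      have h2 : A.b (th β) ≤ A.b (th γ) := A.b_mono (hm hγ)
      exact le_antisymm h1 (h2.trans heq.symm.le))
    rw [hcofJ] at this
    exact absurd this (not_le.2 himg)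
  obtain ⟨α0, hα0⟩ := hconst
  obtain ⟨α1, hα1⟩ := hth.bdd hu α0
  -- the range of `th` is small
  have hbd : ∃ i1, ∀ x ∈ range th, A.b x ≤ i1 := by
    by_contra hcon
    push Not at hcon
    have hc : IsCofinal (range fun α => A.b (th α)) := by
      intro i
      obtain ⟨_, ⟨α, rfl⟩, hα⟩ := hcon i
      exact ⟨_, ⟨α, rfl⟩, hα.le⟩
    have := Order.cof_le hc
    rw [A.hI] at this
    exact absurd this (not_le.2 himg)
  obtain ⟨i1, hi1⟩ := hbd
  have hEcard := A.card_le _ hE i1 hi1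
  -- a big fibre
  let is := A.b (th α0)
  have hfib : ∃ e, A.al is < #{γ | α1 ≤ γ ∧ th γ = e} := by
    by_contra hcon
    push Not at hcon
    have hsub : Ici α1 ⊆ ⋃ e : range th, {γ | α1 ≤ γ ∧ th γ = e.1} := by
      intro γ hγ
      exact mem_iUnion.2 ⟨⟨th γ, γ, rfl⟩, hγ, rfl⟩
    have h1 : #(Ici α1) ≤ A.al i1 * A.al is :=
      calc #(Ici α1) ≤ #(⋃ e : range th, {γ | α1 ≤ γ ∧ th γ = e.1} : Set κ.ord.ToType) :=
            mk_le_mk_of_subset hsub
        _ ≤ #(range th) * ⨆ e : range th, #{γ | α1 ≤ γ ∧ th γ = e.1} := mk_iUnion_le _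
        _ ≤ A.al i1 * A.al is := mul_le_mul' hEcard (ciSup_le' fun e => hcon e.1)
    have h2 : #(Ici α1) < κ := lt_of_le_of_lt h1 (mul_lt_of_lt A.hκ (A.al_lt _) (A.al_lt _))
    have h3 : #(Iio α1) < κ := by
      have := mk_Iio_lt α1 (by rw [mk_ord_toType, type_toType])
      rwa [mk_ord_toType] at this
    rcases le_or_le_of_union A.hκ (mk_ord_toType κ).ge (Iio α1) (Ici α1)
      (fun x => lt_or_ge x α1) with h | h
    · exact absurd h (not_le.2 h3)
    · exact absurd h (not_le.2 h2)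
  obtain ⟨e, he⟩ := hfib
  have hreg := isRegular_succ (A.al_inf is)
  obtain ⟨g, hg⟩ := exists_strictMono (S := {γ | α1 ≤ γ ∧ th γ = e}) (Order.succ (A.al is))
    (Order.succ_le_of_lt he)
  have hNM : NoMaxOrder (Order.succ (A.al is)).ord.ToType := Cardinal.noMaxOrder hreg.aleph0_le
  let u' : (Order.succ (A.al is)).ord.ToType → L → Bool := fun ι => u (g ι).1
  have hu' : Inc u' := fun α β hαβ => hu _ _ (hg hαβ)
  have hG' : A.NoG u' := fun a0 a1 a2 a3 h01 h12 h23 => hG _ _ _ _ (hg h01) (hg h12) (hg h23)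
  obtain ⟨th', hth0'⟩ := exists_th u' hu'
  have hth' : IsTh u' th' := hth0'
  have hE' := A.no_f_of_NoG hu' hG' hth'
  have hbig : ∃ ι, is < A.b (th' ι) := by
    by_contra hcon
    push Not at hcon
    have h1 := A.card_le _ hE' is (by rintro _ ⟨ι, rfl⟩; exact hcon ι)
    have h2 := cof_le_range th' (fun α => by
      obtain ⟨β, hβ⟩ := hth'.bdd hu' α
      exact ⟨β, fun γ hγ => (hβ γ hγ).ne⟩)
    rw [cof_toType, hreg.cof_ord] at h2
    exact absurd (h2.trans h1) (not_le.2 (Order.lt_succ _))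
  obtain ⟨ι, hι⟩ := hbig
  obtain ⟨ι', hιι', hD⟩ := hth' ι
  have hD' : D (u (g ι).1) (u (g ι').1) (th' ι) := hD ι' le_rfl
  have hg1 : th (g ι).1 = e := (g ι).2.2
  have hg2 : th (g ι').1 = e := (g ι').2.2
  have hlt0 : th α0 < e := hg1 ▸ hα1 _ (g ι).2.1
  have hlt0' : th α0 < th (g ι).1 := by rw [hg1]; exact hlt0
  have hα0g : α0 < (g ι).1 := hm.reflect_lt hlt0'
  obtain ⟨α4, hα4, hD4⟩ := hth (g ι').1
  have hlt1 : e < th' ι := by
    have := hth.lt_of_D (hg1.trans hg2.symm) hD'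
    rwa [hg1] at this
  have hbe : A.b (th α0) = A.b e := by
    rw [hα0 _ hα0g.le, hg1]
  have hD4' : D (u (g ι').1) (u α4) e := by
    have := hD4 α4 le_rfl
    rwa [hg2] at this
  refine hG α0 (g ι).1 (g ι').1 α4 hα0g (hg hιι') hα4 (th α0) (th' ι) e
    (hth.D_of_lt hlt0') hD' hD4' (Or.inr ⟨hlt0, hlt1, hbe, ?_⟩)
  rw [← hbe]
  exact hι

/-! ### The colouring of 4-tuples -/

section Colour

variable {X : Type u} (v : X → L → Bool)

/-- the 4-tuples of colour 1 -/
def C (x0 x1 x2 x3 : X) : Prop :=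
  ((∃ l, D (v x0) (v x1) l) ∧ (∃ l, D (v x2) (v x1) l) ∧ (∃ l, D (v x2) (v x3) l)) ∨
  (∃ d1 d2 d3, D (v x0) (v x1) d1 ∧ D (v x1) (v x2) d2 ∧ D (v x2) (v x3) d3 ∧ A.G d1 d2 d3) ∨
  (∃ d1 d2 d3, D (v x1) (v x0) d1 ∧ D (v x2) (v x1) d2 ∧ D (v x3) (v x2) d3 ∧ A.G d1 d2 d3)

omit [WellFoundedLT L] [WellFoundedLT K] [WellFoundedLT Q] [WellFoundedLT I] in
lemma C.G_of_inc {v : X → L → Bool} {x0 x1 x2 x3 : X} (h : A.C v x0 x1 x2 x3) {e1 e2 e3 : L}
    (h1 : D (v x0) (v x1) e1) (h2 : D (v x1) (v x2) e2) (h3 : D (v x2) (v x3) e3) :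
    A.G e1 e2 e3 := by
  rcases h with ⟨_, ⟨l, hl⟩, _⟩ | ⟨d1, d2, d3, k1, k2, k3, k4⟩ | ⟨d1, d2, d3, k1, k2, k3, k4⟩
  · exact absurd (hl.asymm h2) not_false
  · rwa [k1.unique h1, k2.unique h2, k3.unique h3] at k4
  · exact absurd (k1.asymm h1) not_false

omit [WellFoundedLT L] [WellFoundedLT K] [WellFoundedLT Q] [WellFoundedLT I] in
lemma C.G_of_dec {v : X → L → Bool} {x0 x1 x2 x3 : X} (h : A.C v x0 x1 x2 x3) {e1 e2 e3 : L}
    (h1 : D (v x1) (v x0) e1) (h2 : D (v x2) (v x1) e2) (h3 : D (v x3) (v x2) e3) :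
    A.G e1 e2 e3 := by
  rcases h with ⟨⟨l, hl⟩, _, _⟩ | ⟨d1, d2, d3, k1, k2, k3, k4⟩ | ⟨d1, d2, d3, k1, k2, k3, k4⟩
  · exact absurd (hl.asymm h1) not_false
  · exact absurd (k1.asymm h1) not_false
  · rwa [k1.unique h1, k2.unique h2, k3.unique h3] at k4

omit [WellFoundedLT L] [WellFoundedLT K] [WellFoundedLT Q] [WellFoundedLT I] in
lemma no_five_C (x0 x1 x2 x3 x4 : X) (h0123 : A.C v x0 x1 x2 x3) (h1234 : A.C v x1 x2 x3 x4)
    (h0134 : A.C v x0 x1 x3 x4) : False := by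
  rcases id h0123 with ⟨⟨l0, k0⟩, ⟨l1, k1⟩, ⟨l2, k2⟩⟩ | ⟨d1, d2, d3, k1, k2, k3, k4⟩ |
    ⟨d1, d2, d3, k1, k2, k3, k4⟩
  · rcases id h1234 with ⟨⟨m0, n0⟩, _, _⟩ | ⟨e1, e2, e3, n1, n2, n3, n4⟩ |
      ⟨e1, e2, e3, n1, n2, n3, n4⟩
    · exact k1.asymm n0
    · exact k1.asymm n1
    · exact k2.asymm n2
  · rcases id h1234 with ⟨⟨m0, n0⟩, ⟨m1, n1⟩, _⟩ | ⟨e1, e2, e3, n1, n2, n3, n4⟩ |
      ⟨e1, e2, e3, n1, n2, n3, n4⟩
    · exact k3.asymm n1
    · exact A.no_five _ _ _ _ _ k1 k2 k3 n3 (fun _ _ _ => C.G_of_inc A h0123)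
        (fun _ _ _ => C.G_of_inc A h1234) (fun _ _ _ => C.G_of_inc A h0134)
    · exact k2.asymm n1
  · rcases id h1234 with ⟨⟨m0, n0⟩, ⟨m1, n1⟩, _⟩ | ⟨e1, e2, e3, n1, n2, n3, n4⟩ |
      ⟨e1, e2, e3, n1, n2, n3, n4⟩
    · exact k2.asymm n0
    · exact k2.asymm n1
    · exact A.no_five (flip (v x0)) (flip (v x1)) (flip (v x2)) (flip (v x3)) (flip (v x4))
        (D_flip.2 k1) (D_flip.2 k2) (D_flip.2 k3) (D_flip.2 n3)
        (fun _ _ _ a1 a2 a3 => C.G_of_dec A h0123 (D_flip.1 a1) (D_flip.1 a2) (D_flip.1 a3))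
        (fun _ _ _ a1 a2 a3 => C.G_of_dec A h1234 (D_flip.1 a1) (D_flip.1 a2) (D_flip.1 a3))
        (fun _ _ _ a1 a2 a3 => C.G_of_dec A h0134 (D_flip.1 a1) (D_flip.1 a2) (D_flip.1 a3))

variable [LinearOrder X] [WellFoundedLT X]

lemma no_big (hv : Function.Injective v) (H : Set X) (hH : κ ≤ #H)
    (hC : ∀ x0 ∈ H, ∀ x1 ∈ H, ∀ x2 ∈ H, ∀ x3 ∈ H, x0 < x1 → x1 < x2 → x2 < x3 →
      ¬ A.C v x0 x1 x2 x3) : False := by
  obtain ⟨g0, hg0⟩ := exists_strictMono (S := H) κ hH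
  let u : κ.ord.ToType → L → Bool := fun α => v (g0 α).1
  have hu : Function.Injective u := hv.comp (Subtype.val_injective.comp hg0.injective)
  have hCu : ∀ a0 a1 a2 a3, a0 < a1 → a1 < a2 → a2 < a3 → ¬ A.C u a0 a1 a2 a3 := by
    intro a0 a1 a2 a3 h01 h12 h23 h
    exact hC _ (g0 a0).2 _ (g0 a1).2 _ (g0 a2).2 _ (g0 a3).2 (hg0 h01) (hg0 h12) (hg0 h23) h
  -- increasing families are impossible
  have hinc : ∀ B : Set κ.ord.ToType, κ ≤ #B →
      (∀ x ∈ B, ∀ y ∈ B, x < y → ∃ l, D (u x) (u y) l) → False := by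
    intro B hB h
    obtain ⟨g, hg⟩ := exists_strictMono (S := B) κ hB
    refine A.core (fun α => u (g α).1) (fun α β hαβ => h _ (g α).2 _ (g β).2 (hg hαβ)) ?_
    intro a0 a1 a2 a3 h01 h12 h23 d1 d2 d3 k1 k2 k3 hG
    exact hCu _ _ _ _ (hg h01) (hg h12) (hg h23) (Or.inr (Or.inl ⟨d1, d2, d3, k1, k2, k3, hG⟩))
  have hdec : ∀ B : Set κ.ord.ToType, κ ≤ #B →
      (∀ x ∈ B, ∀ y ∈ B, x < y → ∃ l, D (u y) (u x) l) → False := by
    intro B hB h
    obtain ⟨g, hg⟩ := exists_strictMono (S := B) κ hB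
    refine A.core (fun α => flip (u (g α).1)) (fun α β hαβ => ?_) ?_
    · obtain ⟨l, hl⟩ := h _ (g α).2 _ (g β).2 (hg hαβ)
      exact ⟨l, D_flip.2 hl⟩
    · intro a0 a1 a2 a3 h01 h12 h23 d1 d2 d3 k1 k2 k3 hG
      exact hCu _ _ _ _ (hg h01) (hg h12) (hg h23) (Or.inr (Or.inr ⟨d1, d2, d3, D_flip.1 k1,
        D_flip.1 k2, D_flip.1 k3, hG⟩))
  rcases le_or_le_of_union A.hκ (mk_ord_toType κ).ge
    {z | ∀ w, z < w → ∃ l, D (u w) (u z) l} {z | ∀ w, z < w → ∃ l, D (u w) (u z) l}ᶜ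
    (fun x => em _) with h | h
  · exact hdec _ h (fun x hx y _ hxy => hx y hxy)
  · obtain ⟨B, hB, hB'⟩ := split (S := ({z | ∀ w, z < w → ∃ l, D (u w) (u z) l}ᶜ :
      Set κ.ord.ToType)) (fun x => u x.1) (hu.comp Subtype.val_injective) (by
        intro x y z hxy hyz ⟨p1, p2⟩
        have hz : ¬ ∀ w, z.1 < w → ∃ l, D (u w) (u z.1) l := z.2
        push Not at hz
        obtain ⟨w, hw, hw'⟩ := hz
        refine hCu x.1 y.1 z.1 w hxy hyz hw (Or.inl ⟨p1, p2, ?_⟩)
        rcases exists_D (hu.ne hw.ne) with h | h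
        · exact h
        · exact absurd h (by push Not; exact hw')) A.hκ h
    have hB1 : κ ≤ #(Subtype.val '' B) := by
      rwa [mk_image_eq Subtype.val_injective]
    rcases hB' with h' | h'
    · refine hinc _ hB1 ?_
      rintro _ ⟨x, hx, rfl⟩ _ ⟨y, hy, rfl⟩ hxy
      exact h' x hx y hy hxy
    · refine hdec _ hB1 ?_
      rintro _ ⟨x, hx, rfl⟩ _ ⟨y, hy, rfl⟩ hxy
      exact h' x hx y hy hxy

omit [WellFoundedLT X] in
lemma emb_eq (x : Fin 4 → X) (hx : StrictMono x) (s : Finset X) (hs : s.card = 4)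
    (h : ∀ i, x i ∈ s) : ∀ i, s.orderEmbOfFin hs i = x i := by
  intro i
  rw [Finset.orderEmbOfFin_unique hs h hx]

include A in
lemma not_arrow (hv : Function.Injective v) : ¬ Arrow #X ![κ, 5] 4 := by
  classical
  intro harrow
  let F : {s : Finset X // s.card = 4} → Fin 2 := fun s =>
    if A.C v (s.1.orderEmbOfFin s.2 0) (s.1.orderEmbOfFin s.2 1) (s.1.orderEmbOfFin s.2 2)
      (s.1.orderEmbOfFin s.2 3) then 1 else 0
  -- the colour of an increasing 4-tuple
  have hF : ∀ x0 x1 x2 x3 : X, x0 < x1 → x1 < x2 → x2 < x3 →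
      ∃ s : {s : Finset X // s.card = 4}, (s.1 : Set X) = {x0, x1, x2, x3} ∧
        F s = if A.C v x0 x1 x2 x3 then 1 else 0 := by
    intro x0 x1 x2 x3 h01 h12 h23
    have hcard : ({x0, x1, x2, x3} : Finset X).card = 4 := by
      rw [Finset.card_insert_of_notMem, Finset.card_insert_of_notMem,
        Finset.card_insert_of_notMem, Finset.card_singleton]
      · simp only [Finset.mem_singleton]; exact h23.ne
      · simp only [Finset.mem_insert, Finset.mem_singleton, not_or]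
        exact ⟨h12.ne, (h12.trans h23).ne⟩
      · simp only [Finset.mem_insert, Finset.mem_singleton, not_or]
        exact ⟨h01.ne, (h01.trans h12).ne, (h01.trans (h12.trans h23)).ne⟩
    refine ⟨⟨{x0, x1, x2, x3}, hcard⟩, by simp, ?_⟩
    have hmono : StrictMono ![x0, x1, x2, x3] := by
      rw [Fin.strictMono_iff_lt_succ]
      intro i
      fin_cases i
      · exact h01
      · exact h12
      · exact h23
    have hmem : ∀ i, (![x0, x1, x2, x3] : Fin 4 → X) i ∈ ({x0, x1, x2, x3} : Finset X) := by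
      intro i
      fin_cases i <;> simp
    have hemb := emb_eq ![x0, x1, x2, x3] hmono {x0, x1, x2, x3} hcard hmem
    simp only [F]
    rw [hemb 0, hemb 1, hemb 2, hemb 3]
    rfl
  obtain ⟨i, Y, hY, hhom⟩ := harrow X rfl F
  fin_cases i
  · -- colour 0
    have hY' : #Y = κ := hY
    refine A.no_big v hv Y hY'.ge ?_
    intro x0 h0 x1 h1 x2 h2 x3 h3 h01 h12 h23 hC
    obtain ⟨s, hs, hFs⟩ := hF x0 x1 x2 x3 h01 h12 h23
    have h4 := hhom s (by
      rw [hs]
      rintro x (rfl | rfl | rfl | rfl) <;> assumption)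
    rw [hFs, if_pos hC] at h4
    exact absurd h4 (by decide)
  · -- colour 1
    have hY' : #Y = 5 := hY
    have hfin : Y.Finite := by
      rw [← lt_aleph0_iff_set_finite, hY']
      exact natCast_lt_aleph0
    have hcard : hfin.toFinset.card = 5 := by
      have : ((hfin.toFinset.card : ℕ) : Cardinal.{u}) = 5 := by
        rw [← hY', ← mk_coe_finset]
        congr 1
        simp
      exact_mod_cast this
    let e := hfin.toFinset.orderEmbOfFin hcard
    have he : ∀ i, e i ∈ Y := fun i => hfin.mem_toFinset.1 (Finset.orderEmbOfFin_mem _ hcard i)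
    have hC : ∀ a b c d : Fin 5, a < b → b < c → c < d → A.C v (e a) (e b) (e c) (e d) := by
      intro a b c d hab hbc hcd
      obtain ⟨s, hs, hFs⟩ := hF (e a) (e b) (e c) (e d) (e.lt_iff_lt.2 hab) (e.lt_iff_lt.2 hbc)
        (e.lt_iff_lt.2 hcd)
      have h4 := hhom s (by
        rw [hs]
        rintro x (rfl | rfl | rfl | rfl) <;> exact he _)
      by_contra hcon
      rw [hFs, if_neg hcon] at h4
      exact absurd h4 (by decide)
    exact A.no_five_C v (e 0) (e 1) (e 2) (e 3) (e 4) (hC 0 1 2 3 (by decide) (by decide)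
      (by decide)) (hC 1 2 3 4 (by decide) (by decide) (by decide)) (hC 0 1 3 4 (by decide)
      (by decide) (by decide))

end Colour

end Setup

/-! ### Construction of the set-up for a singular cardinal -/

section Construction

variable (κ θ τ : Cardinal.{u}) (hκ : ℵ₀ ≤ κ) (hcof : κ.ord.cof = θ) (hθκ : θ < κ)
  (hτ : τ < θ) (hθτ : θ ≤ 2 ^ τ)

include hκ hcof hθκ hτ hθτ in
/-- The general form of the theorem for a singular cardinal `κ` of cofinality `θ`. -/
theorem general : ¬ Arrow (2 ^ ((2 : Cardinal.{u}) ^< κ)) ![κ, 5] 4 := by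
  classical
  have hreg : θ.IsRegular := by
    rw [← hcof]
    exact isRegular_cof (isSuccLimit_ord hκ)
  have hNM : NoMaxOrder κ.ord.ToType := Cardinal.noMaxOrder hκ
  -- a cofinal map
  obtain ⟨S, hS, hScard⟩ := Order.exists_cof_eq κ.ord.ToType
  rw [cof_toType, hcof] at hScard
  have hIS : #(θ.ord.ToType) = #S := by rw [mk_ord_toType, hScard]
  obtain ⟨c0⟩ := Cardinal.eq.1 hIS
  let c : θ.ord.ToType → κ.ord.ToType := fun i => (c0 i).1
  have hc : ∀ x : κ.ord.ToType, ∃ i, x ≤ c i := by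
    intro x
    obtain ⟨y, hy, hxy⟩ := hS x
    exact ⟨c0.symm ⟨y, hy⟩, by simpa [c] using hxy⟩
  have hIic : ∀ x : κ.ord.ToType, #(Iic x) < κ := by
    intro x
    obtain ⟨y, hy⟩ := exists_gt x
    refine lt_of_le_of_lt (mk_le_mk_of_subset (?_ : Iic x ⊆ Iio y)) ?_
    · intro z hz
      exact lt_of_le_of_lt hz hy
    · have := mk_Iio_lt y (by rw [mk_ord_toType, type_toType])
      rwa [mk_ord_toType] at this
  let al : θ.ord.ToType → Cardinal.{u} := fun i => max θ (⨆ j : Iic i, #(Iic (c j.1)))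
  have hbdd : ∀ i : θ.ord.ToType, BddAbove (range fun j : Iic i => #(Iic (c j.1))) :=
    fun i => Cardinal.bddAbove_of_small
  have hal_mono : Monotone al := by
    intro i j hij
    refine max_le_max le_rfl (ciSup_le' fun k => ?_)
    exact le_ciSup (hbdd j) ⟨k.1, k.2.trans hij⟩
  have hNMθ : NoMaxOrder θ.ord.ToType := Cardinal.noMaxOrder hreg.aleph0_le
  have hIicθ : ∀ i : θ.ord.ToType, #(Iic i) < θ := by
    intro x
    obtain ⟨y, hy⟩ := exists_gt x
    refine lt_of_le_of_lt (mk_le_mk_of_subset (?_ : Iic x ⊆ Iio y)) ?_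
    · intro z hz
      exact lt_of_le_of_lt hz hy
    · have := mk_Iio_lt y (by rw [mk_ord_toType, type_toType])
      rwa [mk_ord_toType] at this
  have hal_lt : ∀ i, al i < κ := by
    intro i
    refine max_lt hθκ ?_
    apply iSup_lt_of_lt_cof_ord
    · rw [hcof]; exact hIicθ i
    · intro j; exact hIic _
  have hal_cof : ∀ d < κ, ∃ i, d ≤ al i := by
    intro d hd
    have hd' : d.ord < κ.ord := ord_lt_ord.2 hd
    obtain ⟨i, hi⟩ := hc (ToType.mk ⟨d.ord, hd'⟩)
    refine ⟨i, le_trans ?_ (le_max_right _ _)⟩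
    have h1 : d = #(Iio (ToType.mk ⟨d.ord, hd'⟩ : κ.ord.ToType)) := by
      have h2 : typein (α := κ.ord.ToType) (· < ·) (ToType.mk ⟨d.ord, hd'⟩) = d.ord := by
        rw [← ToType.mk_symm_apply_coe]
        simp
      have h3 := card_typein (r := ((· < ·) : κ.ord.ToType → κ.ord.ToType → Prop))
        (ToType.mk ⟨d.ord, hd'⟩)
      rw [h2, card_ord] at h3
      exact h3
    refine le_trans ?_ (le_ciSup (hbdd i) ⟨i, mem_Iic.2 le_rfl⟩)
    rw [h1]
    refine mk_le_mk_of_subset ?_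
    intro z hz
    exact (le_of_lt hz).trans hi
  -- the sets `Ki`
  have hKi : ∀ i, ∃ K : Set κ.ord.ToType, #K = al i := by
    intro i
    have h1 : al i ≤ #(κ.ord.ToType) := by rw [mk_ord_toType]; exact (hal_lt i).le
    exact le_mk_iff_exists_set.1 h1
  choose Ki hKicard using hKi
  -- the index set `L`
  obtain ⟨e⟩ : Nonempty ((#(κ.ord.ToType → Bool)).ord.ToType ≃ (κ.ord.ToType → Bool)) :=
    Cardinal.eq.1 (mk_ord_toType _)
  let L := {p : θ.ord.ToType ×ₗ (#(κ.ord.ToType → Bool)).ord.ToType //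
    ∀ k, e (ofLex p).2 k = true → k ∈ Ki (ofLex p).1}
  have hq : ∃ q : θ.ord.ToType → τ.ord.ToType → Bool, Function.Injective q := by
    have : #(θ.ord.ToType) ≤ #(τ.ord.ToType → Bool) := by
      rw [mk_ord_toType]
      simpa using hθτ
    obtain ⟨q⟩ := this
    exact ⟨q, q.injective⟩
  obtain ⟨q, hq⟩ := hq
  let A : Setup κ θ θ.ord.ToType L κ.ord.ToType τ.ord.ToType :=
    { hκ := hκ
      hcof := hcof
      hI := by rw [cof_toType, hreg.cof_ord]
      hθ := hreg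
      al := al
      al_mono := hal_mono
      al_inf := fun i => hreg.aleph0_le.trans (le_max_left _ _)
      al_lt := hal_lt
      al_Iic := fun i => (hIicθ i).le.trans (le_max_left _ _)
      b := fun p => (ofLex p.1).1
      b_mono := fun p p' h => Prod.Lex.monotone_fst _ _ h
      r := fun p => e (ofLex p.1).2
      r_inj := by
        intro p p' h1 h2
        apply Subtype.ext
        apply ofLex.injective
        exact Prod.ext h1 (e.injective h2)
      Ki := Ki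
      Ki_card := fun i => (hKicard i).le
      r_supp := fun p k hk => p.2 k hk
      q := q
      q_inj := hq
      Q_lt := by rw [mk_ord_toType]; exact hτ }
  have hL : (2 : Cardinal.{u}) ^< κ ≤ #L := by
    rw [powerlt_le]
    intro d hd
    obtain ⟨i, hi⟩ := hal_cof d hd
    refine (power_le_power_left two_ne_zero hi).trans ?_
    rw [← hKicard i]
    have h1 : (2 : Cardinal.{u}) ^ #(Ki i) = #(Ki i → Bool) := by simp
    rw [h1]
    let ext : (Ki i → Bool) → κ.ord.ToType → Bool :=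
      fun φ k => if h : k ∈ Ki i then φ ⟨k, h⟩ else false
    have hext : Function.Injective ext := by
      intro φ ψ h
      funext k
      have := congrFun h k.1
      simpa [ext] using this
    have hmem : ∀ φ : Ki i → Bool, ∀ k,
        e (ofLex (toLex (i, e.symm (ext φ)))).2 k = true →
          k ∈ Ki (ofLex (toLex (i, e.symm (ext φ)))).1 := by
      intro φ k hk
      simp only [ofLex_toLex, Equiv.apply_symm_apply] at hk ⊢
      by_contra hcon
      simp [ext, hcon] at hk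
    refine mk_le_of_injective (f := fun φ => (⟨toLex (i, e.symm (ext φ)), hmem φ⟩ : L)) ?_
    intro φ ψ h
    have h1 := congrArg Subtype.val h
    have h2 : (i, e.symm (ext φ)) = (i, e.symm (ext ψ)) := toLex.injective h1
    exact hext (e.symm.injective (Prod.ext_iff.1 h2).2)
  have hX : #((2 : Cardinal.{u}) ^ ((2 : Cardinal.{u}) ^< κ)).ord.ToType =
      (2 : Cardinal.{u}) ^ ((2 : Cardinal.{u}) ^< κ) := mk_ord_toType _
  have hv : ∃ v : ((2 : Cardinal.{u}) ^ ((2 : Cardinal.{u}) ^< κ)).ord.ToType → L → Bool,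
      Function.Injective v := by
    have : #((2 : Cardinal.{u}) ^ ((2 : Cardinal.{u}) ^< κ)).ord.ToType ≤ #(L → Bool) := by
      rw [mk_ord_toType]
      simpa using power_le_power_left two_ne_zero hL
    obtain ⟨v⟩ := this
    exact ⟨v, v.injective⟩
  obtain ⟨v, hv⟩ := hv
  have := A.not_arrow v hv
  rwa [hX] at this

end Construction

end Pool.Agent.Par4Gen
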