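import Mathlib
import Pool.Agent.Par4.EDM

/-!
# `κ → (κ, 3)²` for every infinite `κ`, and `μ → (κ, 5)⁴` for `μ > 2^(2^{<κ})`
-/

open Cardinal Ordinal Set Order

universe u

namespace Pool.Agent.Par4

/-- A singular cardinal is the limit of a monotone sequence of regular cardinals larger than its
cofinality. -/
theorem exists_seq {κ : Cardinal.{u}} (hκ : κ.IsSingular) :
    ∃ kp : κ.ord.cof.ord.ToType → Cardinal.{u}, Monotone kp ∧ (∀ i, (kp i).IsRegular) ∧
      (∀ i, κ.ord.cof < kp i) ∧ (∀ i, kp i < κ) ∧ ∀ c < κ, ∃ i, c ≤ kp i := by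
  have hlim : IsSuccLimit κ := hκ.isSuccLimit
  have h0 : ℵ₀ ≤ κ := hκ.aleph0_le
  set μ : Cardinal.{u} := κ.ord.cof with hμ
  have hμreg : μ.IsRegular := isRegular_cof (isSuccLimit_ord h0)
  have hμκ : μ < κ := hκ.cof_ord_lt
  -- a cofinal set
  obtain ⟨S, hS, hScard⟩ := Order.exists_cof_eq (α := κ.ord.ToType)
  rw [Ordinal.cof_toType] at hScard
  have heq : #μ.ord.ToType = #S := by rw [mk_toType, card_ord, hScard]
  obtain ⟨g⟩ := Cardinal.eq.1 heq
  have hg : ∀ c < κ, ∃ i, c ≤ (pos (g i).1).card := by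
    intro c hc
    obtain ⟨x, hx⟩ := exists_pos (ord_lt_ord.2 hc)
    obtain ⟨s, hs, hxs⟩ := hS x
    refine ⟨g.symm ⟨s, hs⟩, ?_⟩
    rw [g.apply_symm_apply]
    have := card_le_card (pos_le_pos.2 hxs)
    rwa [hx, card_ord] at this
  set kp : μ.ord.ToType → Cardinal.{u} := fun i =>
    succ (max μ (⨆ j : Iic i, (pos (g j.1).1).card)) with hkp
  refine ⟨kp, ?_, ?_, ?_, ?_, ?_⟩
  · intro i j hij
    refine succ_le_succ (max_le_max le_rfl (ciSup_le' fun a => ?_))
    exact le_ciSup (f := fun a : Iic j => (pos (g a.1).1).card) (bddAbove_range _)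
      ⟨a.1, le_trans a.2 hij⟩
  · intro i
    exact isRegular_succ (hμreg.aleph0_le.trans (le_max_left _ _))
  · intro i
    exact (le_max_left _ _).trans_lt (lt_succ _)
  · intro i
    refine hlim.succ_lt (max_lt hμκ ?_)
    have hnm : NoMaxOrder μ.ord.ToType := noMaxOrder_toType hμreg.aleph0_le
    obtain ⟨i', hi'⟩ := exists_gt i
    have hlt : #(Iic i) < μ :=
      (mk_le_mk_of_subset (fun x hx => lt_of_le_of_lt hx hi')).trans_lt (mk_Iio_toType_ord_lt i')
    refine iSup_lt_of_lt_cof_ord hlt fun j => ?_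
    rw [← lt_ord]
    exact pos_lt _
  · intro c hc
    obtain ⟨i, hi⟩ := hg c hc
    refine ⟨i, hi.trans ((le_ciSup (f := fun a : Iic i => (pos (g a.1).1).card) (bddAbove_range _)
      ⟨i, mem_Iic.2 le_rfl⟩).trans ((le_max_right _ _).trans (le_succ _)))⟩

/-- Singular case of the Erdős–Dushnik–Miller theorem for triangle-free graphs. -/
theorem exists_indep_singular {X : Type u} (adj : X → X → Prop)
    (hsymm : ∀ x y, adj x y → adj y x) (hirr : ∀ x, ¬ adj x x)
    (htri : ∀ x, Indep adj {y | adj x y}) {κ : Cardinal.{u}} (hκ : κ.IsSingular) (hX : #X = κ) :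
    ∃ B : Set X, Indep adj B ∧ κ ≤ #B := by
  by_cases hdeg : ∃ x, κ ≤ #({y | adj x y} : Set X)
  · obtain ⟨x, hx⟩ := hdeg
    exact ⟨_, htri x, hx⟩
  push Not at hdeg
  have h0 : ℵ₀ ≤ κ := hκ.aleph0_le
  have hμreg : κ.ord.cof.IsRegular := isRegular_cof (isSuccLimit_ord h0)
  have hnm : NoMaxOrder κ.ord.cof.ord.ToType := noMaxOrder_toType hμreg.aleph0_le
  obtain ⟨kp, hmono, hreg, hbig, hlt, hsmall⟩ := exists_seq hκ
  have hIic : ∀ γ : κ.ord.cof.ord.ToType, #(Iic γ) < κ.ord.cof := by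
    intro γ
    obtain ⟨i', hi'⟩ := exists_gt γ
    exact (mk_le_mk_of_subset (fun x hx => lt_of_le_of_lt hx hi')).trans_lt
      (mk_Iio_toType_ord_lt i')
  -- the sets `A β`
  have hA : ∀ β : κ.ord.cof.ord.ToType, ∃ (A : Set X) (δ : κ.ord.cof.ord.ToType),
      Indep adj A ∧ kp β < #A ∧ #(Nb adj A) ≤ kp δ := by
    intro β
    set ρ : Cardinal.{u} := succ (kp β) with hρdef
    have hρ : ρ.IsRegular := isRegular_succ (hreg β).aleph0_le
    have hρlt : ρ < κ := hκ.isSuccLimit.succ_lt (hlt β)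
    obtain ⟨B, -, hB2, hB3⟩ := exists_indep_regular adj hsymm hirr htri hρ univ
      (by rw [mk_univ, hX]; exact hρlt.le)
    have hdeg' : ∀ x : B, ∃ γ : κ.ord.cof.ord.ToType, #({y | adj x.1 y} : Set X) ≤ kp γ :=
      fun x => hsmall _ (hdeg x.1)
    choose dg hdg using hdeg'
    obtain ⟨γ, hγ⟩ := infinite_pigeonhole_card dg ρ hB3 hρ.aleph0_le (by
      rw [hρ.cof_ord, mk_toType, card_ord]
      exact (hbig β).trans (lt_succ _))
    set A : Set X := Subtype.val '' (dg ⁻¹' {γ}) with hAdef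
    have hAκ : ρ ≤ #A := by
      rw [hAdef, mk_image_eq Subtype.val_injective]
      exact hγ
    obtain ⟨A', hA'1, hA'2⟩ := le_mk_iff_exists_subset.1 hAκ
    obtain ⟨δ, hδ⟩ := hsmall (ρ * kp γ) (mul_lt_of_lt h0 hρlt (hlt γ))
    refine ⟨A', δ, ?_, ?_, ?_⟩
    · intro x hx y hy
      obtain ⟨x', _, rfl⟩ := hA'1 hx
      obtain ⟨y', _, rfl⟩ := hA'1 hy
      exact hB2 _ x'.2 _ y'.2
    · rw [hA'2]
      exact lt_succ _
    · have hsub : Nb adj A' ⊆ ⋃ x : A', {y | adj x.1 y} := by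
        rintro y ⟨x, hx, hxy⟩
        exact mem_iUnion.2 ⟨⟨x, hx⟩, hxy⟩
      calc #(Nb adj A') ≤ #(⋃ x : A', {y | adj x.1 y} : Set X) := mk_le_mk_of_subset hsub
        _ ≤ #A' * ⨆ x : A', #({y | adj x.1 y} : Set X) := mk_iUnion_le _
        _ ≤ ρ * kp γ := by
          refine mul_le_mul' hA'2.le (ciSup_le' fun x => ?_)
          obtain ⟨x', hx', hx''⟩ := hA'1 x.2
          have h3 := hdg x'
          rw [show dg x' = γ from hx', hx''] at h3
          exact h3
        _ ≤ kp δ := hδ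
  choose A δ hA1 hA2 hA3 using hA
  -- a sparse unbounded set
  obtain ⟨S, hS1, hS2⟩ : ∃ S : Set κ.ord.cof.ord.ToType,
      (∀ β ∈ S, ∀ γ ∈ S, β < γ → δ β ≤ γ) ∧ ∀ γ, ∃ β ∈ S, γ ≤ β := by
    obtain ⟨S, hS⟩ := zorn_subset {S : Set κ.ord.cof.ord.ToType |
        ∀ β ∈ S, ∀ γ ∈ S, β < γ → δ β ≤ γ} (by
      intro c hc hchain
      refine ⟨⋃₀ c, ?_, fun s hs => subset_sUnion_of_mem hs⟩
      rintro x ⟨s, hs, hxs⟩ y ⟨t, ht, hyt⟩
      rcases hchain.total hs ht with h | h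
      · exact hc ht x (h hxs) y hyt
      · exact hc hs x hxs y (h hyt))
    refine ⟨S, hS.prop, ?_⟩
    by_contra hcon
    push Not at hcon
    obtain ⟨γ, hγ⟩ := hcon
    have hSc : #S < κ.ord.cof := (mk_le_mk_of_subset (fun β hβ => (hγ β hβ).le)).trans_lt (hIic γ)
    obtain ⟨u, hu⟩ := exists_bound (δ '' S) (by
      rw [Ordinal.cof_toType, hμreg.cof_ord]
      exact mk_image_le.trans_lt hSc)
    have hnew : insert (max u γ) S = S := by
      refine (hS.eq_of_subset ?_ (subset_insert _ _)).symm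
      rintro a (rfl | ha) b (rfl | hb) hab
      · exact absurd hab (lt_irrefl _)
      · exact absurd (hab.trans (hγ b hb)) (not_lt.2 (le_max_right _ _))
      · exact (hu _ ⟨a, ha, rfl⟩).le.trans (le_max_left _ _)
      · exact hS.prop a ha b hb hab
    have h1 : max u γ ∈ S := hnew ▸ mem_insert _ _
    exact absurd (hγ _ h1) (not_lt.2 (le_max_right _ _))
  -- the final set
  set T : κ.ord.cof.ord.ToType → Set X := fun β =>
    ⋃ γ : ({γ | γ ∈ S ∧ γ < β} : Set κ.ord.cof.ord.ToType), Nb adj (A γ.1) with hT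
  have hTcard : ∀ β ∈ S, #(T β) ≤ kp β := by
    intro β hβ
    calc #(T β) ≤ #({γ | γ ∈ S ∧ γ < β} : Set κ.ord.cof.ord.ToType) *
          ⨆ γ : ({γ | γ ∈ S ∧ γ < β} : Set κ.ord.cof.ord.ToType),
            #(Nb adj (A γ.1)) := mk_iUnion_le _
      _ ≤ kp β * kp β := by
        refine mul_le_mul' ((mk_le_mk_of_subset fun γ hγ => hγ.2.le).trans
          ((hIic β).le.trans (hbig β).le))
          (ciSup_le' fun γ => (hA3 _).trans (hmono (hS1 _ γ.2.1 _ hβ γ.2.2)))
      _ = kp β := mul_eq_self (hreg β).aleph0_le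
  refine ⟨⋃ β : S, A β.1 \ T β.1, ?_, ?_⟩
  · have key : ∀ β ∈ S, ∀ γ ∈ S, β < γ → ∀ x ∈ A β \ T β, ∀ y ∈ A γ \ T γ, ¬ adj x y := by
      intro β hβ γ hγ hβγ x hx y hy h
      exact hy.2 (mem_iUnion.2 ⟨⟨β, hβ, hβγ⟩, x, hx.1, h⟩)
    intro x hx y hy h
    obtain ⟨β, hβ⟩ := mem_iUnion.1 hx
    obtain ⟨γ, hγ⟩ := mem_iUnion.1 hy
    rcases lt_trichotomy β.1 γ.1 with h1 | h1 | h1
    · exact key _ β.2 _ γ.2 h1 x hβ y hγ h
    · rw [← h1] at hγ
      exact hA1 _ x hβ.1 y hγ.1 h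
    · exact key _ γ.2 _ β.2 h1 y hγ x hβ (hsymm _ _ h)
  · by_contra hcon
    obtain ⟨γ, hγ⟩ := hsmall _ (not_le.1 hcon)
    obtain ⟨β, hβ, hγβ⟩ := hS2 γ
    have h1 : #(A β \ T β : Set X) ≤ kp β :=
      (mk_le_mk_of_subset (subset_iUnion (fun β : S => A β.1 \ T β.1) ⟨β, hβ⟩)).trans
        (hγ.trans (hmono hγβ))
    have h2 : #(A β) ≤ kp β := by
      calc #(A β) ≤ #(A β \ T β ∪ T β : Set X) := mk_le_mk_of_subset (by
              intro x hx
              by_cases h : x ∈ T β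
              · exact .inr h
              · exact .inl ⟨hx, h⟩)
        _ ≤ #(A β \ T β : Set X) + #(T β) := mk_union_le _ _
        _ ≤ kp β + kp β := add_le_add h1 (hTcard β hβ)
        _ = kp β := add_eq_self (hreg β).aleph0_le
    exact absurd (hA2 β) (not_lt.2 h2)

/-- `κ → (κ, 3)²` for every infinite cardinal `κ`. -/
theorem arrow_two_general {κ : Cardinal.{u}} (hκ : ℵ₀ ≤ κ) : Arrow κ 2 κ 3 := by
  classical
  intro X hX F
  by_contra hcon
  push Not at hcon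
  obtain ⟨h0, h1⟩ := hcon
  set adj : X → X → Prop := fun x y => ∃ h : ({x, y} : Finset X).card = 2, F ⟨{x, y}, h⟩ = 1 with hadj
  have hsymm : ∀ x y, adj x y → adj y x := by
    rintro x y ⟨h, h'⟩
    have h2 : ({x, y} : Finset X) = {y, x} := Finset.pair_comm x y
    refine ⟨h2 ▸ h, ?_⟩
    rw [← h']
    congr 1
    exact Subtype.ext h2.symm
  have hirr : ∀ x, ¬ adj x x := by
    rintro x ⟨h, _⟩
    simp at h
  have hne : ∀ x y, adj x y → x ≠ y := by
    rintro x y h rfl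
    exact hirr x h
  have htri : ∀ x, Indep adj {y | adj x y} := by
    intro x y hy z hz hyz
    have hxy : x ≠ y := hne _ _ hy
    have hxz : x ≠ z := hne _ _ hz
    have hyz' : y ≠ z := hne _ _ hyz
    have hthree : #(({x, y, z} : Finset X) : Set X) = 3 := by
      rw [show #(({x, y, z} : Finset X) : Set X) = (({x, y, z} : Finset X).card : Cardinal.{u}) from
        Cardinal.mk_coe_finset, Finset.card_eq_three.2 ⟨x, y, z, hxy, hxz, hyz', rfl⟩]
      norm_num
    obtain ⟨s, hs1, hs2⟩ := h1 (({x, y, z} : Finset X) : Set X) hthree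
    obtain ⟨a, b, hab, hs⟩ := Finset.card_eq_two.1 s.2
    have ha : a = x ∨ a = y ∨ a = z := by
      have : a ∈ (s.1 : Set X) := by rw [hs]; simp
      simpa using hs1 this
    have hb : b = x ∨ b = y ∨ b = z := by
      have : b ∈ (s.1 : Set X) := by rw [hs]; simp
      simpa using hs1 this
    have hadj2 : adj a b := by
      rcases ha with rfl | rfl | rfl <;> rcases hb with rfl | rfl | rfl <;>
        first
          | exact absurd rfl hab
          | assumption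
          | exact hsymm _ _ (by assumption)
    obtain ⟨h3, h4⟩ := hadj2
    apply hs2
    rw [← h4]
    congr 1
    exact Subtype.ext hs
  obtain ⟨B, hB1, hB2⟩ : ∃ B : Set X, Indep adj B ∧ κ ≤ #B := by
    rcases isRegular_or_isSingular hκ with h | h
    · obtain ⟨B, _, h2, h3⟩ := exists_indep_regular adj hsymm hirr htri h univ
        (by rw [mk_univ, hX])
      exact ⟨B, h2, h3⟩
    · exact exists_indep_singular adj hsymm hirr htri h hX
  obtain ⟨B', hB'1, hB'2⟩ := le_mk_iff_exists_subset.1 hB2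
  obtain ⟨s, hs1, hs2⟩ := h0 B' hB'2
  obtain ⟨a, b, hab, hs⟩ := Finset.card_eq_two.1 s.2
  have ha : a ∈ B := hB'1 (hs1 (by rw [hs]; simp))
  have hb : b ∈ B := hB'1 (hs1 (by rw [hs]; simp))
  apply hB1 a ha b hb
  refine ⟨hs ▸ s.2, ?_⟩
  have h3 : F s = 1 := by
    have : ∀ a : Fin 2, a ≠ 0 → a = 1 := by decide
    exact this _ hs2
  rw [← h3]
  congr 1
  exact Subtype.ext hs.symm

/-- The positive relation above `2^(2^{<κ})`, for every uncountable `κ`. -/
theorem pos_general {κ : Cardinal.{u}} (hκ : ℵ₀ < κ) {lam : Cardinal.{u}}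
    (h : (2 : Cardinal.{u}) ^ ((2 : Cardinal.{u}) ^< κ) < lam) : Arrow lam 4 κ 5 := by
  have h2 := step_up hκ (arrow_two_general hκ.le) (lt_succ ((2 : Cardinal.{u}) ^< κ))
  have h3 : ℵ₀ < succ ((2 : Cardinal.{u}) ^< κ) :=
    hκ.trans_le ((self_le_two_powerlt _).trans (le_succ _))
  have h4 := step_up h3 h2 (μ := lam) (by rwa [powerlt_succ two_ne_zero])
  have h5 : (3 : Cardinal.{u}) + 1 + 1 = 5 := by norm_num
  rwa [h5] at h4

/-- The same in terms of families of target sizes. -/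
theorem pos_family {κ : Cardinal.{u}} (hκ : ℵ₀ < κ) {lam : Cardinal.{u}}
    (h : (2 : Cardinal.{u}) ^ ((2 : Cardinal.{u}) ^< κ) < lam) :
    ∀ X : Type u, #X = lam → ∀ f : {s : Finset X // s.card = 4} → Fin 2,
      ∃ (i : Fin 2) (Y : Set X), #Y = (![κ, 5] : Fin 2 → Cardinal.{u}) i ∧
        ∀ s : {s : Finset X // s.card = 4}, (s.1 : Set X) ⊆ Y → f s = i := by
  intro X hX f
  rcases pos_general hκ h X hX f with ⟨Y, h1, h2⟩ | ⟨Y, h1, h2⟩
  · exact ⟨0, Y, h1, h2⟩
  · exact ⟨1, Y, h1, h2⟩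

end Pool.Agent.Par4
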